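import Pool.Agent.MP_bbfc69_co.HA.Spec

namespace Pool.Agent.MP_bbfc69_co.HA

theorem absorb : ABS := by
  intro V _ G r a g K f S v0 M0 hI hSp hRob hf c1 c2 c4 c5
  classical
  set F : Finset V := (v0 :: M0).toFinset with hF
  have hFc : F.card ≤ f := (List.toFinset_card_le _).trans (by simpa using hf)
  have hSF : ∀ z ∈ S, z ∈ F := fun z hz => List.mem_toFinset.2 (c4 z hz)
  have step : ∀ i : ℕ, ∃ M : List V, Ch G (v0 :: M ++ [v0]) ∧ (v0 :: M).Nodup ∧
      bw r (v0 :: M ++ [v0]) ≤ f + i * g ∧ ((∀ z, z ∈ v0 :: M) ∨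
        ((∀ z ∈ F, z ∈ v0 :: M) ∧
        (∀ w, w ∉ v0 :: M → (∃ p ∈ prs (v0 :: M ++ [v0]),
          p.1 ∉ S ∧ p.2 ∉ S ∧ Lk G {z | z ∉ S} w p.1) ∧
            ∀ z ∈ v0 :: M, Lk G {z | z ∉ S} w z → z ∈ F) ∧
        ∃ T : Finset V, T.card = i ∧ (∀ t ∈ T, t ∉ S) ∧
          (∀ t ∈ T, ∀ t' ∈ T, Lk G {z | z ∉ S} t t' → t = t') ∧
          ∀ t ∈ T, ∀ z, Lk G {z | z ∉ S} t z → z ∈ v0 :: M)) := by
    intro i
    induction i with
    | zero =>
      refine ⟨M0, c1, c2, ?_, Or.inr ⟨fun z hz => List.mem_toFinset.1 hz, fun w hw =>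
        ⟨c5 w hw, fun z hz _ => List.mem_toFinset.2 hz⟩, ∅, rfl, by simp, by simp, by simp⟩⟩
      have := bw_le (r := r) v0 (M0 ++ [v0])
      simp only [List.length_append, List.length_cons, List.length_nil, List.cons_append]
        at this ⊢
      omega
    | succ i ih =>
      obtain ⟨M, m1, m2, m3, m4⟩ := ih
      have hmul : (i + 1) * g = i * g + g := by ring
      by_cases hall : ∀ z, z ∈ v0 :: M
      · exact ⟨M, m1, m2, by omega, Or.inl hall⟩
      obtain ⟨m5, m6, T, t1, t2, t3, t4⟩ := m4.resolve_left hall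
      push Not at hall
      obtain ⟨w, hw⟩ := hall
      have hwS : w ∉ S := fun h => hw (m5 w (hSF w h))
      obtain ⟨⟨⟨y, z⟩, hp, hyS, hzS, hwy⟩, hwF⟩ := m6 w hw
      simp only at hyS hzS hwy
      have hyz : G.Adj y z := m1 _ hp
      have hwz : Lk G {z | z ∉ S} w z := hwy.trans (Lk.single hyz hyS hzS)
      have hv0 : v0 ∈ F := by simp [hF]
      -- the pair lies inside the list `v0 :: M` or ends at the final `v0`
      obtain ⟨A, B, hAB⟩ := mem_prs.1 hp
      have hyM : y ∈ v0 :: M := by
        have := prs_fst_mem hp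
        simp only [List.cons_append, List.mem_cons, List.mem_append, List.not_mem_nil,
          or_false] at this ⊢
        tauto
      have hzM : z ∈ v0 :: M := by
        have := prs_snd_mem hp
        simp only [List.cons_append, List.mem_cons, List.mem_append, List.not_mem_nil,
          or_false] at this ⊢
        tauto
      have hyF := hwF y hyM hwy
      have hzF := hwF z hzM hwz
      obtain ⟨Z, z1, z2, z3, z4⟩ := hSp
        {u | (u ∉ S ∧ Lk G {z | z ∉ S} w u) ∧ u ∉ (F.erase y).erase z} y z (by
          intro u hu v hv X hX huX hvX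
          have := hRob w hwS u hu.1 v hv.1 (X ∪ (F.erase y).erase z)
            ((Finset.card_union_le _ _).trans (by
              have h1 : ((F.erase y).erase z).card ≤ F.card :=
                Finset.card_le_card ((Finset.erase_subset _ _).trans (Finset.erase_subset _ _))
              omega))
            (by rw [Finset.mem_union, not_or]; exact ⟨huX, hu.2⟩)
            (by rw [Finset.mem_union, not_or]; exact ⟨hvX, hv.2⟩)
          refine this.mono ?_
          rintro t ⟨h1, h2⟩
          rw [Finset.mem_union, not_or] at h2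
          exact ⟨⟨h1, h2.2⟩, h2.1⟩)
        ⟨⟨hyS, hwy⟩, by simp⟩ ⟨⟨hzS, hwz⟩, by simp⟩ hyz.ne
      have hZ : ∀ u ∈ Z, Lk G {z | z ∉ S} w u ∧ u ∉ v0 :: M := by
        intro u hu
        obtain ⟨h1, h2⟩ := (z3 u).1 (by simp [hu])
        refine ⟨h1.2, fun h => h2 ?_⟩
        simp only [List.cons_append, List.nodup_cons, List.mem_append, not_or] at z2
        have e1 : u ≠ y := fun e => z2.1.1 (e ▸ hu)
        have e2 : u ≠ z := (List.nodup_append.1 z2.2).2.2 u hu z (by simp)
        exact Finset.mem_erase.2 ⟨e2, Finset.mem_erase.2 ⟨e1, hwF u h h1.2⟩⟩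
      have hZn : Z.Nodup := by
        simp only [List.cons_append, List.nodup_cons] at z2
        exact (List.nodup_append.1 z2.2).1
      obtain ⟨M', hM', hperm⟩ : ∃ M' : List V,
          v0 :: M' ++ [v0] = A ++ y :: (Z ++ z :: B) ∧ (v0 :: M').Perm (Z ++ v0 :: M) := by
        obtain ⟨B', b, hB⟩ : ∃ B' b, z :: B = B' ++ [b] :=
          ⟨(z :: B).dropLast, (z :: B).getLast (by simp),
            (List.dropLast_append_getLast (by simp)).symm⟩
        rw [hB] at hAB ⊢
        have h1 : (v0 :: M) ++ [v0] = (A ++ y :: B') ++ [b] := by simpa using hAB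
        obtain ⟨h2, h3⟩ := List.append_inj' h1 rfl
        have hb : b = v0 := by simpa using h3.symm
        subst hb
        cases A with
        | nil =>
          simp only [List.nil_append, List.cons.injEq] at h2
          obtain ⟨rfl, rfl⟩ := h2
          exact ⟨Z ++ M, by simp, List.perm_middle.symm⟩
        | cons a0 A =>
          simp only [List.cons_append, List.cons.injEq] at h2
          obtain ⟨rfl, rfl⟩ := h2
          refine ⟨A ++ y :: (Z ++ B'), by simp, ?_⟩
          refine List.Perm.trans ?_ List.perm_middle.symm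
          refine List.Perm.cons _ ?_
          have : A ++ y :: (Z ++ B') = (A ++ [y]) ++ (Z ++ B') := by simp
          rw [this]
          have h4 : Z ++ (A ++ y :: B') = Z ++ ((A ++ [y]) ++ B') := by simp
          rw [h4]
          exact List.perm_append_comm_assoc _ _ _
      have hmem : ∀ u, u ∈ v0 :: M' ↔ u ∈ Z ∨ u ∈ v0 :: M := fun u => by
        rw [hperm.mem_iff, List.mem_append]
      have hpr : prs (v0 :: M ++ [v0]) = prs (A ++ [y]) ++ (y, z) :: prs (z :: B) := by
        rw [hAB, prs_split, prs_cons_cons]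
      have hpr' : prs (v0 :: M' ++ [v0]) =
          prs (A ++ [y]) ++ (prs (y :: Z ++ [z]) ++ prs (z :: B)) := by
        rw [hM', prs_split, ← List.cons_append, prs_split (y :: Z)]
      have hcl : ∀ u, Lk G {z | z ∉ S} w u → u ∈ v0 :: M' := by
        intro u hu
        by_cases e : u ∈ F
        · exact (hmem u).2 (Or.inr (m5 u e))
        · have : u ∈ y :: Z ++ [z] := (z3 u).2 ⟨⟨hu.mem hwS, hu⟩, fun h =>
            e (Finset.mem_of_mem_erase (Finset.mem_of_mem_erase h))⟩
          simp only [List.cons_append, List.mem_cons, List.mem_append, List.not_mem_nil,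
            or_false] at this
          rcases this with h | h | h
          · exact absurd (h ▸ hyF) e
          · exact (hmem u).2 (Or.inl h)
          · exact absurd (h ▸ hzF) e
      refine ⟨M', ?_, ?_, ?_, Or.inr ⟨fun u hu => (hmem u).2 (Or.inr (m5 u hu)), ?_,
        insert w T, ?_, ?_, ?_, ?_⟩⟩
      · intro p hp
        rw [hpr'] at hp
        simp only [List.mem_append] at hp
        rcases hp with h | h | h
        · exact m1 p (by rw [hpr]; simp [h])
        · exact z1 p h
        · exact m1 p (by rw [hpr]; simp [h])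
      · rw [hperm.nodup_iff, List.nodup_append]
        exact ⟨hZn, m2, fun u hu v hv e => (hZ u hu).2 (e ▸ hv)⟩
      · have h1 : bw r (v0 :: M' ++ [v0]) =
            bw r (A ++ [y]) + (bw r (y :: Z ++ [z]) + bw r (z :: B)) := by
          rw [hM', bw_split, ← List.cons_append, bw_split (y :: Z)]
        have h2 : bw r (v0 :: M ++ [v0]) =
            bw r (A ++ [y]) + (bw r ([y] ++ [z]) + bw r (z :: B)) := by
          rw [hAB, bw_split, ← bw_split [y]]; rfl
        omega
      · intro w' hw'
        have hw'M : w' ∉ v0 :: M := fun h => hw' ((hmem w').2 (Or.inr h))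
        have hne : ∀ u, Lk G {z | z ∉ S} w u → ¬ Lk G {z | z ∉ S} w' u :=
          fun u h1 h2 => hw' (hcl w' (h1.trans h2.symm))
        obtain ⟨⟨p, p1, p2, p3, p4⟩, q⟩ := m6 w' hw'M
        refine ⟨⟨p, ?_, p2, p3, p4⟩, fun u hu h => ?_⟩
        · rw [hpr] at p1
          rw [hpr']
          simp only [List.mem_append, List.mem_cons] at p1 ⊢
          rcases p1 with h | h | h
          · exact Or.inl h
          · rw [h] at p4
            exact absurd p4 (hne y hwy)
          · exact Or.inr (Or.inr h)
        · rcases (hmem u).1 hu with h' | h'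
          · exact absurd h (hne u (hZ u h').1)
          · exact q u h' h
      · rw [Finset.card_insert_of_notMem (fun h => hw (t4 w h w (Lk.refl _ _))), t1]
      · intro t ht
        rcases Finset.mem_insert.1 ht with rfl | h
        · exact hwS
        · exact t2 t h
      · intro t ht t' ht' h
        rcases Finset.mem_insert.1 ht with rfl | h1 <;>
          rcases Finset.mem_insert.1 ht' with rfl | h2
        · rfl
        · exact absurd (t4 t' h2 _ h.symm) hw
        · exact absurd (t4 t h1 _ h) hw
        · exact t3 t h1 t' h2 h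
      · intro t ht u h
        rcases Finset.mem_insert.1 ht with rfl | h1
        · exact hcl u h
        · exact (hmem u).2 (Or.inr (t4 t h1 u h))
  have fin : ∀ i : ℕ, (∃ M : List V, Ch G (v0 :: M ++ [v0]) ∧ (v0 :: M).Nodup ∧
      (∀ z, z ∈ v0 :: M) ∧ bw r (v0 :: M ++ [v0]) ≤ f + i * g) ∨ i < a := by
    intro i
    obtain ⟨M, m1, m2, m3, m4⟩ := step i
    by_cases hall : ∀ z, z ∈ v0 :: M
    · exact Or.inl ⟨M, m1, m2, hall, m3⟩
    obtain ⟨m5, -, T, t1, t2, t3, t4⟩ := m4.resolve_left hall
    push Not at hall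
    obtain ⟨w, hw⟩ := hall
    have hwS : w ∉ S := fun h => hw (m5 w (hSF w h))
    have hwT : w ∉ T := fun h => hw (t4 w h w (Lk.refl _ _))
    have := hI (insert w T) (by
      intro t ht t' ht' h
      rcases Finset.mem_insert.1 ht with rfl | h1 <;>
        rcases Finset.mem_insert.1 ht' with rfl | h2
      · exact h.ne rfl
      · exact hw (t4 t' h2 _ (Lk.single h.symm (t2 t' h2) hwS))
      · exact hw (t4 t h1 _ (Lk.single h (t2 t h1) hwS))
      · exact h.ne (t3 t h1 t' h2 (Lk.single h (t2 t h1) (t2 t' h2))))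
    rw [Finset.card_insert_of_notMem hwT] at this
    exact Or.inr (by omega)
  exact (fin a).resolve_right (lt_irrefl a)

end Pool.Agent.MP_bbfc69_co.HA
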