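import Pool.Agent.MP_bbfc69_co.HA.Spec

namespace Pool.Agent.MP_bbfc69_co.HA

namespace Ce

variable {V : Type} {G : SimpleGraph V}

/-- A path from `x` to `y` inside `R`. -/
def Good (G : SimpleGraph V) (R : Set V) (x y : V) (L : List V) : Prop :=
  Ch G L ∧ L.Nodup ∧ (∀ z ∈ L, z ∈ R) ∧ L.head? = some x ∧ L.getLast? = some y

lemma shape {x y : V} {L : List V} (h1 : L.head? = some x) (h2 : L.getLast? = some y)
    (hxy : x ≠ y) : ∃ Z, L = x :: Z ++ [y] := by
  obtain ⟨Z, rfl⟩ := List.getLast?_eq_some_iff.1 h2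
  cases Z with
  | nil => simp at h1; exact absurd h1.symm hxy
  | cons b Z => simp at h1; exact ⟨Z, by rw [h1]⟩

lemma ch_infix {A M B : List V} (h : Ch G (A ++ M ++ B)) : Ch G M := by
  rintro ⟨p, q⟩ hp
  obtain ⟨A', B', rfl⟩ := mem_prs.1 hp
  exact h (p, q) (mem_prs.2 ⟨A ++ A', B' ++ B, by simp⟩)

lemma last_eq (A : List V) (p : V) (M : List V) (q : V) (D : List V) :
    (A ++ p :: (M ++ q :: D)).getLast? = (q :: D).getLast? := by
  have : A ++ p :: (M ++ q :: D) = (A ++ p :: M) ++ q :: D := by simp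
  rw [this, List.getLast?_append_cons]

lemma surg {R : Set V} {x y p q : V} {A M D T : List V}
    (h : Good G R x y (A ++ p :: (M ++ q :: D))) (t1 : T.Nodup)
    (t2 : ∀ z ∈ T, z ∈ R ∧ z ∉ A ++ p :: (M ++ q :: D))
    (t3 : Ch G (p :: (T ++ M.reverse) ++ [q])) :
    Good G R x y (A ++ p :: ((T ++ M.reverse) ++ q :: D)) := by
  classical
  obtain ⟨h1, h2, h3, h4, h5⟩ := h
  have hp : (A ++ p :: ((T ++ M.reverse) ++ q :: D)).Perm (T ++ (A ++ p :: (M ++ q :: D))) := by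
    rw [List.perm_iff_count]
    intro z
    simp only [List.count_append, List.count_cons, List.count_reverse]
    omega
  refine ⟨?_, ?_, ?_, ?_, ?_⟩
  · rw [ch_split] at h1 ⊢
    refine ⟨h1.1, ?_⟩
    have := ((ch_split (p :: M) q D).1 h1.2).2
    exact (ch_split (p :: (T ++ M.reverse)) q D).2 ⟨t3, this⟩
  · rw [hp.nodup_iff, List.nodup_append]
    exact ⟨t1, h2, fun u hu v hv e => (t2 u hu).2 (e ▸ hv)⟩
  · intro z hz
    rcases List.mem_append.1 (hp.mem_iff.1 hz) with hz | hz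
    · exact (t2 z hz).1
    · exact h3 z hz
  · cases A <;> simpa using h4
  · rw [last_eq] at h5 ⊢
    exact h5

lemma two_aux {A A' B B' a' : List V} {p1 q1 p2 q2 : V} (hne : p1 ≠ p2) (e1 : A' = A ++ a')
    (e2 : p1 :: q1 :: B = a' ++ p2 :: q2 :: B') :
    ∃ A0 M0 M1 D, A' ++ p2 :: q2 :: B' = A0 ++ p1 :: ((q1 :: M0) ++ q2 :: D) ∧
      q1 :: M0 = M1 ++ [p2] := by
  subst e1
  rcases a' with _ | ⟨b, _ | ⟨c, a'⟩⟩
  · simp at e2; exact absurd e2.1 hne
  · simp at e2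
    obtain ⟨rfl, rfl, -⟩ := e2
    exact ⟨A, [], [], B', by simp, by simp⟩
  · simp at e2
    obtain ⟨rfl, rfl, -⟩ := e2
    exact ⟨A, a' ++ [p2], q1 :: a', B', by simp, by simp⟩

lemma two {Q : List V} {p1 q1 p2 q2 : V} (h1 : (p1, q1) ∈ prs Q) (h2 : (p2, q2) ∈ prs Q)
    (hne : p1 ≠ p2) :
    (∃ A0 M0 M1 D, Q = A0 ++ p1 :: ((q1 :: M0) ++ q2 :: D) ∧ q1 :: M0 = M1 ++ [p2]) ∨
      ∃ A0 M0 M1 D, Q = A0 ++ p2 :: ((q2 :: M0) ++ q1 :: D) ∧ q2 :: M0 = M1 ++ [p1] := by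
  obtain ⟨A, B, e⟩ := mem_prs.1 h1
  obtain ⟨A', B', e'⟩ := mem_prs.1 h2
  rcases List.append_eq_append_iff.1 (e.symm.trans e') with ⟨a', k1, k2⟩ | ⟨a', k1, k2⟩
  · exact Or.inl (e' ▸ two_aux hne k1 k2)
  · exact Or.inr (e ▸ two_aux hne.symm k1 k2)

lemma succ {Q : List V} {y p : V} (h : Q.getLast? = some y) (hp : p ∈ Q) (hy : p ≠ y) :
    ∃ q, (p, q) ∈ prs Q := by
  obtain ⟨A, B, rfl⟩ := List.append_of_mem hp
  cases B with
  | nil => simp at h; exact absurd h hy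
  | cons q B => exact ⟨q, mem_prs.2 ⟨A, B, rfl⟩⟩

lemma join (h : SHORT) {a : ℕ} (hI : Ind G a) {U : Set V} {w p p' : V} (hw : w ∈ U)
    (h1 : ∃ c, Lk G U w c ∧ G.Adj p c) (h2 : ∃ c, Lk G U w c ∧ G.Adj p' c) :
    ∃ T : List V, T ≠ [] ∧ T.Nodup ∧ (∀ z ∈ T, z ∈ U) ∧ Ch G (p :: T ++ [p']) := by
  obtain ⟨c, l, k⟩ := h1
  obtain ⟨c', l', k'⟩ := h2
  by_cases e : c = c'
  · subst e
    exact ⟨[c], by simp, by simp, by simpa using l.mem hw, by simp [k, k'.symm]⟩
  · obtain ⟨T, t1, t2, t3, -⟩ := h V G a U c c' hI e (l.symm.trans l')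
    refine ⟨c :: T ++ [c'], by simp, t2, ?_, ?_⟩
    · intro z hz
      simp only [List.cons_append, List.mem_cons, List.mem_append, List.not_mem_nil,
        or_false] at hz
      rcases hz with rfl | hz | rfl
      · exact l.mem hw
      · exact t3 z hz
      · exact l'.mem hw
    · have := (ch_split (c :: T) c' [p']).2 ⟨t1, by simp [k'.symm]⟩
      simpa [k] using this

end Ce

open Ce in
theorem ce (h : SHORT) : CE := by
  intro V _ G a R x y hI hR hx hy hxy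
  classical
  obtain ⟨Q, hQ, hmax⟩ : ∃ Q ∈ {L | Good G R x y L}, ∀ L ∈ {L | Good G R x y L},
      L.length ≤ Q.length := by
    refine Set.exists_max_image _ List.length
      ((List.finite_length_le V (Fintype.card V)).subset fun L hL => hL.2.1.length_le_card) ?_
    obtain ⟨T, t1, t2, t3, -⟩ := h V G a _ x y hI hxy (hR x hx y hy ∅ (by simp) (by simp) (by simp))
    refine ⟨x :: T ++ [y], t1, t2, ?_, by simp, List.getLast?_concat⟩
    intro z hz
    simp only [List.cons_append, List.mem_cons, List.mem_append, List.not_mem_nil,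
      or_false] at hz
    rcases hz with rfl | hz | rfl
    · exact hx
    · exact (t3 z hz).1
    · exact hy
  have hQ' : Good G R x y Q := hQ
  obtain ⟨q1, q2, q3, q4, q5⟩ := hQ
  obtain ⟨Z, hZ⟩ := shape q4 q5 hxy
  refine ⟨Z, hZ ▸ q1, hZ ▸ q2, fun w => ⟨fun hw => q3 w (hZ ▸ hw), fun hw => ?_⟩⟩
  rw [← hZ]
  by_contra hwQ
  set U : Set V := {z | z ∈ R ∧ z ∉ Q} with hU
  have hwU : w ∈ U := ⟨hw, hwQ⟩
  let n : V → Prop := fun p => ∃ c, Lk G U w c ∧ G.Adj p c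
  have big : ∀ (A M D T : List V) (p q : V), Q = A ++ p :: (M ++ q :: D) → T ≠ [] → T.Nodup →
      (∀ z ∈ T, z ∈ U) → ¬ Ch G (p :: (T ++ M.reverse) ++ [q]) := by
    intro A M D T p q e t0 t1 t2 t3
    have k := hmax _ (surg (e ▸ hQ') t1 (fun z hz => e ▸ t2 z hz) t3)
    have := List.length_pos_iff.2 t0
    rw [e] at k
    simp only [List.length_append, List.length_cons, List.length_reverse] at k
    omega
  have one : ∀ p q, (p, q) ∈ prs Q → n p → ¬ n q := by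
    intro p q hpq hp hq
    obtain ⟨A, B, e⟩ := mem_prs.1 hpq
    obtain ⟨T, t0, t1, t2, t3⟩ := join h hI hwU hp hq
    exact big A [] B T p q e t0 t1 t2 (by simpa using t3)
  have three : ∀ (p1 r1 p2 r2 : V), n p1 → n p2 → G.Adj r2 r1 →
      ¬ ∃ A0 M0 M1 D, Q = A0 ++ p1 :: ((r1 :: M0) ++ r2 :: D) ∧ r1 :: M0 = M1 ++ [p2] := by
    rintro p1 r1 p2 r2 n1 n2 hadj ⟨A0, M0, M1, D, e, e'⟩
    obtain ⟨T, t0, t1, t2, t3⟩ := join h hI hwU n1 n2
    refine big A0 (r1 :: M0) D T p1 r2 e t0 t1 t2 ?_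
    have c1 : Ch G (r1 :: M0) :=
      ch_infix (A := A0 ++ [p1]) (B := r2 :: D) (by simpa [e] using q1)
    have c2 := ch_reverse ((ch_cons_cons r2 r1 M0).2 ⟨hadj, c1⟩)
    rw [e'] at c2 ⊢
    have := (ch_split (p1 :: T) p2 (M1.reverse ++ [r2])).2 ⟨t3, by simpa using c2⟩
    simpa using this
  let N : Finset V := Finset.univ.filter fun p => p ∈ Q ∧ n p
  have hN : ∀ p, p ∈ N ↔ p ∈ Q ∧ n p := by simp [N]
  have hcard : a + 1 ≤ N.card := by
    by_contra hc
    obtain ⟨q0, k1, k2⟩ : ∃ q0 ∈ Q, ¬ n q0 := by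
      have hxQ : x ∈ Q := by simp [hZ]
      obtain ⟨q, hq⟩ := succ q5 hxQ hxy
      by_cases e : n x
      · exact ⟨q, prs_snd_mem hq, one x q hq e⟩
      · exact ⟨x, hxQ, e⟩
    have l := hR w hw q0 (q3 q0 k1) N (by omega) (fun e => hwQ ((hN w).1 e).1)
      (fun e => k2 ((hN q0).1 e).2)
    have : ∀ z, Lk G {z | z ∈ R ∧ z ∉ N} w z → Lk G U w z := by
      intro z hz
      induction hz with
      | refl => exact Lk.refl _ _
      | tail _ k ih =>
        exact ih.trans (Lk.single k.1 (ih.mem hwU)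
          ⟨k.2.2.1, fun e => k.2.2.2 ((hN _).2 ⟨e, _, ih, k.1.symm⟩)⟩)
    exact ((this q0 l).mem hwU).2 k1
  have hs : ∀ p, ∃ q, p ∈ N.erase y → (p, q) ∈ prs Q := by
    intro p
    by_cases e : p ∈ N.erase y
    · obtain ⟨q, hq⟩ := succ q5 ((hN p).1 (Finset.mem_of_mem_erase e)).1 (Finset.ne_of_mem_erase e)
      exact ⟨q, fun _ => hq⟩
    · exact ⟨p, fun k => absurd k e⟩
  choose s hs using hs
  have hn : ∀ p ∈ N.erase y, n p := fun p hp => ((hN p).1 (Finset.mem_of_mem_erase hp)).2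
  have hinj : Set.InjOn s (N.erase y : Finset V) := by
    intro p hp p' hp' e
    by_contra hne
    rcases two (hs p hp) (hs p' hp') hne with ⟨A0, M0, M1, D, k, -⟩ | ⟨A0, M0, M1, D, k, -⟩
    all_goals
      rw [k, e] at q2
      have := (List.nodup_cons.1 (List.nodup_cons.1 q2.of_append_right).2).1
      simp at this
  have hw' : ∀ p ∈ N.erase y, ¬ G.Adj (s p) w := fun p hp k =>
    one p (s p) (hs p hp) (hn p hp) ⟨w, Lk.refl _ _, k⟩
  have hwI : w ∉ (N.erase y).image s := by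
    intro k
    obtain ⟨p, hp, e⟩ := Finset.mem_image.1 k
    exact hwQ (e ▸ prs_snd_mem (hs p hp))
  have key := hI (insert w ((N.erase y).image s)) (by
    intro u hu v hv hadj
    simp only [Finset.mem_insert, Finset.mem_image] at hu hv
    rcases hu with rfl | ⟨p, hp, rfl⟩ <;> rcases hv with rfl | ⟨p', hp', rfl⟩
    · exact hadj.ne rfl
    · exact hw' p' hp' hadj.symm
    · exact hw' p hp hadj
    · rcases two (hs p hp) (hs p' hp') (fun e => hadj.ne (by rw [e])) with k | k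
      · exact three _ _ _ _ (hn p hp) (hn p' hp') hadj.symm k
      · exact three _ _ _ _ (hn p' hp') (hn p hp) hadj k)
  rw [Finset.card_insert_of_notMem hwI, Finset.card_image_of_injOn hinj] at key
  have := Finset.pred_card_le_card_erase (s := N) (a := y)
  omega

end Pool.Agent.MP_bbfc69_co.HA
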