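import Pool.Agent.MP_bbfc69_co.HA.Spec

namespace Pool.Agent.MP_bbfc69_co.HA

namespace Cut

variable {V : Type}

open Classical in
theorem run (S : Finset V) (k c : ℕ) : ∀ L : List V, (c + 1) * k ≤ L.length →
    L.countP (fun z => z ∈ S) ≤ c →
      ∃ A Z B : List V, L = A ++ Z ++ B ∧ Z.length = k ∧ ∀ z ∈ Z, z ∉ S := by
  induction c with
  | zero =>
    intro L h1 h2
    refine ⟨[], L.take k, L.drop k, by simp, by rw [List.length_take]; omega, fun z hz hS => ?_⟩
    have h3 := List.countP_eq_zero.1 (Nat.le_zero.1 h2) z (List.mem_of_mem_take hz)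
    simp [hS] at h3
  | succ c ih =>
    intro L h1 h2
    have e : (c + 1 + 1) * k = (c + 1) * k + k := by ring
    by_cases h : ∀ z ∈ L.take k, z ∉ S
    · exact ⟨[], L.take k, L.drop k, by simp, by rw [List.length_take]; omega, h⟩
    · push Not at h
      obtain ⟨z, hz, hS⟩ := h
      have h3 : 0 < (L.take k).countP (fun z => z ∈ S) :=
        List.countP_pos_iff.2 ⟨z, hz, by simp [hS]⟩
      have h4 : L.countP (fun z => z ∈ S) =
          (L.take k).countP (fun z => z ∈ S) + (L.drop k).countP (fun z => z ∈ S) := by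
        rw [← List.countP_append, List.take_append_drop]
      obtain ⟨A, Z, B, h5, h6, h7⟩ := ih (L.drop k) (by rw [List.length_drop]; omega) (by omega)
      refine ⟨L.take k ++ A, Z, B, ?_, h6, h7⟩
      rw [List.append_assoc, List.append_assoc, ← List.append_assoc A, ← h5,
        List.take_append_drop]

open Classical in
theorem count_le (S : Finset V) (L : List V) (h : L.Nodup) :
    L.countP (fun z => z ∈ S) ≤ S.card := by
  rw [List.countP_eq_length_filter, ← List.toFinset_card_of_nodup (h.filter _)]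
  refine Finset.card_le_card fun z hz => ?_
  simpa using (List.mem_filter.1 (List.mem_toFinset.1 hz)).2

/-- The properties that a short cycle keeps. -/
def Gd (G : SimpleGraph V) (S : Finset V) (v0 : V) (M0 : List V) : Prop :=
  Ch G (v0 :: M0 ++ [v0]) ∧ (v0 :: M0).Nodup ∧ (∀ z ∈ S, z ∈ v0 :: M0) ∧
    ∀ w, w ∉ v0 :: M0 → ∃ p ∈ prs (v0 :: M0 ++ [v0]),
      p.1 ∉ S ∧ p.2 ∉ S ∧ Lk G {z | z ∉ S} w p.1

theorem step {G : SimpleGraph V} {S : Finset V} {v0 x y : V} {A Y B : List V} (hx : x ∉ S)
    (hy : y ∉ S) (hY : ∀ z ∈ Y, z ∉ S) (hxy : G.Adj x y)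
    (h : Gd G S v0 (A ++ x :: (Y ++ y :: B))) : Gd G S v0 (A ++ x :: y :: B) := by
  obtain ⟨h1, h2, h3, h4⟩ := h
  have e1 : prs (v0 :: (A ++ x :: (Y ++ y :: B)) ++ [v0]) =
      prs (v0 :: A ++ [x]) ++ (prs (x :: Y ++ [y]) ++ prs (y :: (B ++ [v0]))) := by
    rw [← prs_split (x :: Y) y (B ++ [v0])]
    have := prs_split (v0 :: A) x (Y ++ y :: (B ++ [v0]))
    simpa using this
  have e2 : prs (v0 :: (A ++ x :: y :: B) ++ [v0]) =
      prs (v0 :: A ++ [x]) ++ ((x, y) :: prs (y :: (B ++ [v0]))) := by
    have := prs_split (v0 :: A) x (y :: (B ++ [v0]))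
    simpa using this
  have hc : Ch G (x :: (Y ++ [y])) := by
    intro p hp
    refine h1 p ?_
    rw [e1]
    exact List.mem_append_right _ (List.mem_append_left _ hp)
  have hl : ∀ z ∈ x :: (Y ++ [y]), Lk G {z | z ∉ S} x z := by
    refine lk_of_ch hc fun z hz => ?_
    simp only [List.mem_cons, List.mem_append, List.not_mem_nil, or_false] at hz
    rcases hz with rfl | hz | rfl
    · exact hx
    · exact hY z hz
    · exact hy
  have hm : (x, y) ∈ prs (v0 :: (A ++ x :: y :: B) ++ [v0]) := by
    rw [e2]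
    simp
  refine ⟨?_, ?_, ?_, ?_⟩
  · intro p hp
    rw [e2] at hp
    rcases List.mem_append.1 hp with hp | hp
    · refine h1 p ?_
      rw [e1]
      exact List.mem_append_left _ hp
    · rcases List.mem_cons.1 hp with rfl | hp
      · exact hxy
      · refine h1 p ?_
        rw [e1]
        exact List.mem_append_right _ (List.mem_append_right _ hp)
  · refine h2.sublist (List.Sublist.cons_cons _ (List.Sublist.append_left ?_ _))
    exact List.Sublist.cons_cons _ (List.sublist_append_right _ _)
  · intro z hz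
    have := h3 z hz
    simp only [List.mem_cons, List.mem_append] at this ⊢
    rcases this with h | h | h | h | h | h
    · exact Or.inl h
    · exact Or.inr (Or.inl h)
    · exact Or.inr (Or.inr (Or.inl h))
    · exact absurd hz (hY z h)
    · exact Or.inr (Or.inr (Or.inr (Or.inl h)))
    · exact Or.inr (Or.inr (Or.inr (Or.inr h)))
  · intro w hw
    by_cases hwY : w ∈ Y
    · exact ⟨(x, y), hm, hx, hy, (hl w (by simp [hwY])).symm⟩
    · have hw' : w ∉ v0 :: (A ++ x :: (Y ++ y :: B)) := by
        simp only [List.mem_cons, List.mem_append, not_or] at hw ⊢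
        exact ⟨hw.1, hw.2.1, hw.2.2.1, hwY, hw.2.2.2.1, hw.2.2.2.2⟩
      obtain ⟨p, hp, p1, p2, p3⟩ := h4 w hw'
      rw [e1] at hp
      rcases List.mem_append.1 hp with hp | hp
      · refine ⟨p, ?_, p1, p2, p3⟩
        rw [e2]
        exact List.mem_append_left _ hp
      · rcases List.mem_append.1 hp with hp | hp
        · exact ⟨(x, y), hm, hx, hy, p3.trans (hl p.1 (prs_fst_mem hp)).symm⟩
        · refine ⟨p, ?_, p1, p2, p3⟩
          rw [e2]
          exact List.mem_append_right _ (List.mem_cons_of_mem _ hp)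

end Cut

open Cut in
theorem cut (h : CHORD) : CUT := by
  intro V G a S v0 M hI _ m1 m2 m3
  classical
  have key : ∀ (n : ℕ) (L : List V), L.length ≤ n → Gd G S v0 L →
      ∃ M0, Gd G S v0 M0 ∧ M0.length ≤ (S.card + 1) * (2 * a + 1) := by
    intro n
    induction n with
    | zero => exact fun L h1 h2 => ⟨L, h2, by omega⟩
    | succ n ih =>
      intro L h1 h2
      by_cases hL : L.length ≤ (S.card + 1) * (2 * a + 1)
      · exact ⟨L, h2, hL⟩
      · have hn : L.Nodup := (List.nodup_cons.1 h2.2.1).2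
        obtain ⟨A, Z, B, e, z1, z2⟩ := run S (2 * a + 1) S.card L (by omega) (count_le S L hn)
        have hZ : Z.Nodup := by
          rw [e] at hn
          exact hn.sublist ((List.sublist_append_right _ _).trans (List.sublist_append_left _ _))
        obtain ⟨A', x, Y, y, B', e', y0, hxy⟩ := h V G a hI Z hZ z1.ge
        have e2 : L = (A ++ A') ++ x :: (Y ++ y :: (B' ++ B)) := by
          rw [e, e']
          simp
        have hlen : 0 < Y.length := List.length_pos_iff.2 y0
        rw [e2] at h2
        refine ih _ ?_ (step (z2 x (by rw [e']; simp)) (z2 y (by rw [e']; simp))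
          (fun z hz => z2 z (by rw [e']; simp [hz])) hxy h2)
        rw [e2] at h1
        simp only [List.length_append, List.length_cons] at h1 ⊢
        omega
  obtain ⟨M0, ⟨g1, g2, g3, g4⟩, g5⟩ := key M.length M le_rfl
    ⟨m1, m2, fun z _ => m3 z, fun w hw => absurd (m3 w) hw⟩
  exact ⟨M0, g1, g2, g5, g3, g4⟩

end Pool.Agent.MP_bbfc69_co.HA
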