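import Pool.Agent.MP_bbfc69_co.HA.Spec2

namespace Pool.Agent.MP_bbfc69_co.HA

open Cut

namespace Cut2

variable {V : Type}

lemma lastS (S : Finset V) {x : V} (_hx : x ∉ S) : ∀ (L : List V) (p0 : V) (Y0 : List V),
    p0 ∈ S → (∀ z ∈ Y0, z ∉ S) → x ∈ L →
      ∃ A p Y B, p0 :: (Y0 ++ L) = A ++ p :: (Y ++ x :: B) ∧ p ∈ S ∧ ∀ z ∈ Y, z ∉ S := by
  intro L
  induction L with
  | nil => intro _ _ _ _ h; simp at h
  | cons b L ih =>
    intro p0 Y0 h0 hY h
    by_cases e : x = b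
    · exact ⟨[], p0, Y0, L, by simp [e], h0, hY⟩
    · have h' : x ∈ L := (List.mem_cons.1 h).resolve_left e
      by_cases hb : b ∈ S
      · obtain ⟨A, p, Y, B, e1, e2, e3⟩ := ih b [] hb (by simp) h'
        refine ⟨p0 :: Y0 ++ A, p, Y, B, ?_, e2, e3⟩
        rw [List.nil_append] at e1
        rw [e1]; simp
      · obtain ⟨A, p, Y, B, e1, e2, e3⟩ := ih p0 (Y0 ++ [b]) h0 (by
          intro z hz
          rcases List.mem_append.1 hz with h | h
          · exact hY z h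
          · rw [List.mem_singleton.1 h]; exact hb) h'
        exact ⟨A, p, Y, B, by rw [← e1]; simp, e2, e3⟩

open Classical in
lemma rest_eq {A R : List V} {p : V} (h : p ∉ A) :
    ((A ++ p :: R).dropWhile (fun z => z ≠ p)).tail = R := by
  induction A with
  | nil => simp
  | cons b A ih =>
    simp only [List.mem_cons, not_or] at h
    rw [List.cons_append, List.dropWhile_cons_of_pos (by simpa using fun e => h.1 e.symm)]
    exact ih h.2

lemma cr_step (S : Finset V) {v0 x y : V} (A Y B : List V) (hx : x ∉ S) (hy : y ∉ S) :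
    cr S (v0 :: (A ++ x :: y :: B) ++ [v0]) ≤ cr S (v0 :: (A ++ x :: (Y ++ y :: B)) ++ [v0]) := by
  have e1 : v0 :: (A ++ x :: y :: B) ++ [v0] = (v0 :: A) ++ x :: y :: (B ++ [v0]) := by simp
  have e2 : v0 :: (A ++ x :: (Y ++ y :: B)) ++ [v0] =
      (v0 :: A) ++ x :: (Y ++ y :: (B ++ [v0])) := by simp
  unfold cr
  rw [e1, e2, bw_split (v0 :: A), bw_split (v0 :: A) x (Y ++ _), ← List.cons_append (a := x),
    bw_split (x :: Y)]
  have e3 := bw_split (r := fun x y => (x ∈ S ↔ y ∈ S)) [x] y (B ++ [v0])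
  have e4 : bw (fun x y => (x ∈ S ↔ y ∈ S)) ([x] ++ [y]) = 0 := by
    rw [bw_eq_zero]; simp [hx, hy]
  simp only [List.cons_append, List.nil_append] at e3 e4 ⊢
  omega

end Cut2

open Cut2 in
theorem cut2 (hC : CHORD) (hS : SHORT) (hM : MRG) (hP : PIG) (hO : ORD) : CUT2 := by
  intro V _ G a K S v0 M hI hv0 m1 m2 m3 hK hRob
  classical
  have ex1 : ∃ c, ∃ M0, Gd G S v0 M0 ∧ cr S (v0 :: M0 ++ [v0]) = c :=
    ⟨_, M, ⟨m1, m2, fun z _ => m3 z, fun w hw => absurd (m3 w) hw⟩, rfl⟩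
  have ex2 : ∃ n, ∃ M0, (Gd G S v0 M0 ∧ cr S (v0 :: M0 ++ [v0]) ≤ Nat.find ex1) ∧
      M0.length = n := by
    obtain ⟨M0, h1, h2⟩ := Nat.find_spec ex1
    exact ⟨_, M0, ⟨h1, h2.le⟩, rfl⟩
  obtain ⟨M0, ⟨hG, hc⟩, hl⟩ := Nat.find_spec ex2
  have min1 : ∀ M1, Gd G S v0 M1 → cr S (v0 :: M0 ++ [v0]) ≤ cr S (v0 :: M1 ++ [v0]) :=
    fun M1 h => hc.trans (Nat.find_min' ex1 ⟨M1, h, rfl⟩)
  have min2 : ∀ M1, Gd G S v0 M1 → cr S (v0 :: M1 ++ [v0]) ≤ cr S (v0 :: M0 ++ [v0]) →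
      M0.length ≤ M1.length :=
    fun M1 h h' => hl.le.trans (Nat.find_min' ex2 ⟨M1, ⟨h, h'.trans hc⟩, rfl⟩)
  have hn : M0.Nodup := (List.nodup_cons.1 hG.2.1).2
  have norun : ∀ A Z B, M0 = A ++ Z ++ B → (∀ z ∈ Z, z ∉ S) → Z.length ≤ 2 * a := by
    intro A Z B e z2
    by_contra hlt
    have hZ : Z.Nodup := by
      rw [e] at hn
      exact hn.sublist ((List.sublist_append_right _ _).trans (List.sublist_append_left _ _))
    obtain ⟨A', x, Y, y, B', e', y0, hxy⟩ := hC V G a hI Z hZ (by omega)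
    have e2 : M0 = (A ++ A') ++ x :: (Y ++ y :: (B' ++ B)) := by
      rw [e, e']; simp
    have hlen : 0 < Y.length := List.length_pos_iff.2 y0
    have hx := z2 x (by rw [e']; simp)
    have hy := z2 y (by rw [e']; simp)
    have := min2 _ (step hx hy (fun z hz => z2 z (by rw [e']; simp [hz])) hxy (e2 ▸ hG))
      (by rw [e2]; exact cr_step S _ _ _ hx hy)
    rw [e2] at this
    simp only [List.length_append, List.length_cons] at this
    omega
  refine ⟨M0, hG, ?_, ?_⟩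
  · by_contra hL
    obtain ⟨A, Z, B, e, z1, z2⟩ := run S (2 * a + 1) S.card M0 (by omega) (count_le S M0 hn)
    have := norun A Z B e z2
    omega
  intro w hw
  have hwS : w ∉ S := fun h => hw (hG.2.2.1 w h)
  obtain ⟨U, hU⟩ : ∃ U : Set V, ∀ z, z ∈ U ↔ z ∉ S ∧ Lk G {z | z ∉ S} w z ∧ z ∉ v0 :: M0 :=
    ⟨{z | z ∉ S ∧ Lk G {z | z ∉ S} w z ∧ z ∉ v0 :: M0}, fun _ => Iff.rfl⟩
  obtain ⟨At, hAt⟩ : ∃ At : Finset V, ∀ x, x ∈ At ↔
      x ∈ v0 :: M0 ∧ x ∉ S ∧ ∃ u ∈ U, G.Adj x u :=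
    ⟨Finset.univ.filter (fun x => x ∈ v0 :: M0 ∧ x ∉ S ∧ ∃ u ∈ U, G.Adj x u), by simp⟩
  obtain ⟨T, hT⟩ : ∃ T : Finset V, ∀ p, p ∈ T ↔ p ∈ S ∧ ∃ u ∈ U, ∃ x A Y B,
      v0 :: M0 = A ++ p :: (Y ++ x :: B) ∧ (∀ z ∈ Y, z ∉ S) ∧ x ∉ S ∧ G.Adj x u :=
    ⟨Finset.univ.filter (fun p => p ∈ S ∧ ∃ u ∈ U, ∃ x A Y B,
      v0 :: M0 = A ++ p :: (Y ++ x :: B) ∧ (∀ z ∈ Y, z ∉ S) ∧ x ∉ S ∧ G.Adj x u), by
        intro p; rw [Finset.mem_filter]; exact ⟨fun h => h.2, fun h => ⟨Finset.mem_univ _, h⟩⟩⟩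
  have merge : ∀ (p q u u' x x' : V) (A Y B1 Y' B : List V),
      v0 :: M0 = A ++ p :: (Y ++ x :: (B1 ++ q :: (Y' ++ x' :: B))) → p ∈ S → q ∈ S →
      G.Adj p q → (∀ z ∈ Y, z ∉ S) → x ∉ S → (∀ z ∈ Y', z ∉ S) → x' ∉ S → u ∈ U → u' ∈ U →
      G.Adj x u → G.Adj x' u' → ¬ Lk G U u u' := by
    intro p q u u' x x' A Y B1 Y' B e hp hq hpq hY hx hY' hx' hu hu' hxu hxu' hl
    have hxx : x ≠ x' := by
      have h1 := hG.2.1
      rw [e] at h1
      have h2 : (x :: (B1 ++ q :: (Y' ++ x' :: B))).Nodup :=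
        h1.sublist ((List.sublist_append_right Y _).trans
          ((List.sublist_cons_self p _).trans (List.sublist_append_right A _)))
      intro h
      exact (List.nodup_cons.1 h2).1 (by simp [h])
    have hk : Lk G {z | z ∈ U ∨ z = x ∨ z = x'} x x' :=
      (Lk.single hxu (Or.inr (Or.inl rfl)) (Or.inl hu)).trans
        ((hl.mono fun z hz => Or.inl hz).trans
          (Lk.single hxu'.symm (Or.inl hu') (Or.inr (Or.inr rfl))))
    obtain ⟨T', t1, t2, t3, -⟩ := hS V G a _ x x' hI hxx hk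
    simp only [List.cons_append, List.nodup_cons, List.mem_append, not_or] at t2
    obtain ⟨M1, g1, g2⟩ := hM V G S v0 M0 A Y B1 Y' B T' p x q x' hG e hp hq hpq hY hx hY' hx' t1
      (List.nodup_append.1 t2.2).1 (by
        intro z hz
        rcases t3 z hz with h | h | h
        · exact ⟨((hU z).1 h).1, ((hU z).1 h).2.2⟩
        · exact absurd (h ▸ hz) t2.1.1
        · exact absurd h ((List.nodup_append.1 t2.2).2.2 z hz x' (by simp)))
    have := min1 M1 g1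
    omega
  have hTc : T.card ≤ a * a := by
    have ch : ∀ p, ∃ u, p ∈ T → u ∈ U ∧ ∃ x A Y B,
        v0 :: M0 = A ++ p :: (Y ++ x :: B) ∧ (∀ z ∈ Y, z ∉ S) ∧ x ∉ S ∧ G.Adj x u := by
      intro p
      by_cases h : p ∈ T
      · obtain ⟨u, hu⟩ := ((hT p).1 h).2
        exact ⟨u, fun _ => hu⟩
      · exact ⟨p, fun h' => absurd h' h⟩
    choose u hu using ch
    refine hP V G a U T u hI (fun p hp => (hu p hp).1) ?_
    intro p hp q hq hpq hl
    obtain ⟨p1, x, A, Y, B, e, p2, p3, p4⟩ := hu p hp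
    obtain ⟨q1, x', A', Y', B', e', q2, q3, q4⟩ := hu q hq
    have hpS := ((hT p).1 hp).1
    have hqS := ((hT q).1 hq).1
    rcases hO V S A Y B A' Y' B' p x q x' (e ▸ hG.2.1) (e.symm.trans e') hpq.ne hpS hqS p2 p3 q2 q3
      with ⟨B1, h⟩ | ⟨B1, h⟩
    · exact merge p q _ _ x x' A Y B1 Y' B' (h ▸ e) hpS hqS hpq p2 p3 q2 q3 p1 q1 p4 q4 hl
    · exact merge q p _ _ x' x A' Y' B1 Y B (h ▸ e') hqS hpS hpq.symm q2 q3 p2 p3 q1 p1 q4 p4
        hl.symm
  have hAc : At.card ≤ a * a * (2 * a) := by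
    have sub : At ⊆ T.biUnion (fun p =>
        ((((v0 :: M0).dropWhile (fun z => z ≠ p)).tail).take (2 * a)).toFinset) := by
      intro x hx
      obtain ⟨x1, x2, u, x3, x4⟩ := (hAt x).1 hx
      have x5 : x ∈ M0 := (List.mem_cons.1 x1).resolve_left (fun e => x2 (e ▸ hv0))
      obtain ⟨A, p, Y, B, e, hp, hY⟩ := lastS S x2 M0 v0 [] hv0 (by simp) x5
      rw [List.nil_append] at e
      refine Finset.mem_biUnion.2 ⟨p, (hT p).2 ⟨hp, u, x3, x, A, Y, B, e, hY, x2, x4⟩, ?_⟩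
      have hpA : p ∉ A := by
        have h1 := hG.2.1
        rw [e] at h1
        exact fun h => (List.nodup_append.1 h1).2.2 p h p (by simp) rfl
      have hlen : (Y ++ [x]).length ≤ 2 * a := by
        refine norun (A ++ [p]).tail (Y ++ [x]) B ?_ (by
          intro z hz
          rcases List.mem_append.1 hz with h | h
          · exact hY z h
          · rw [List.mem_singleton.1 h]; exact x2)
        cases A with
        | nil => simpa using (List.cons.inj e).2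
        | cons b A => simpa using (List.cons.inj e).2
      rw [List.mem_toFinset, e, rest_eq hpA]
      have : Y ++ x :: B = (Y ++ [x]) ++ B := by simp
      rw [this, List.take_append, List.take_of_length_le hlen]
      simp
    refine (Finset.card_le_card sub).trans ?_
    refine (Finset.card_biUnion_le_card_mul _ _ (2 * a) fun p _ => ?_).trans
      (Nat.mul_le_mul_right _ hTc)
    exact (List.toFinset_card_le _).trans (List.length_take_le _ _)
  refine ⟨At, hAc, fun z hz hl => ?_⟩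
  by_contra hzA
  have hwA : w ∉ At := fun h => hw ((hAt w).1 h).1
  have h1 := hRob w hwS w ⟨hwS, Lk.refl _ _⟩ z ⟨hl.mem hwS, hl⟩ At (hAc.trans hK) hwA hzA
  have h2 : ∀ t, Lk G {z | z ∈ {z | z ∉ S ∧ Lk G {w | w ∉ S} w z} ∧ z ∉ At} w t → t ∈ U := by
    intro t ht
    induction ht with
    | refl => exact (hU w).2 ⟨hwS, Lk.refl _ _, hw⟩
    | tail _ h ih =>
      obtain ⟨h3, -, ⟨h4, h5⟩, h6⟩ := h
      exact (hU _).2 ⟨h4, h5, fun h7 => h6 ((hAt _).2 ⟨h7, h4, _, ih, h3.symm⟩)⟩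
  exact ((hU z).1 (h2 z h1)).2.2 hz

end Pool.Agent.MP_bbfc69_co.HA
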