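import Pool.Agent.MP_bbfc69_co.HA.Spec

/-! The theorem of Gallai and Milgram for lists of paths. -/

namespace Pool.Agent.MP_bbfc69_co.HA

namespace Gm

variable {V : Type} {s : V → V → Prop}

/-- All steps of all paths satisfy `s`. -/
def Gd (s : V → V → Prop) (Qs : List (V × List V)) : Prop :=
  ∀ q ∈ Qs, ∀ p ∈ prs (q.1 :: q.2), s p.1 p.2

/-- The heads of the paths. -/
def hd (Qs : List (V × List V)) : List V := Qs.map Prod.fst

lemma hd_cons (q : V × List V) (Qs : List (V × List V)) : hd (q :: Qs) = q.1 :: hd Qs := rfl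

lemma hd_length (Qs : List (V × List V)) : (hd Qs).length = Qs.length := List.length_map _

lemma hd_sub (Qs : List (V × List V)) : (hd Qs).Sublist (fl Qs) := by
  induction Qs with
  | nil => exact List.Sublist.refl _
  | cons q Qs ih =>
    rw [hd_cons, fl_cons, List.cons_append]
    exact (ih.trans (List.sublist_append_right _ _)).cons_cons _

lemma fl_perm {Ps Qs : List (V × List V)} (h : Ps.Perm Qs) : (fl Ps).Perm (fl Qs) :=
  h.flatMap_right _

lemma hd_perm {Ps Qs : List (V × List V)} (h : Ps.Perm Qs) : (hd Ps).Perm (hd Qs) := h.map _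

lemma gd_perm {Ps Qs : List (V × List V)} (h : Ps.Perm Qs) (hg : Gd s Ps) : Gd s Qs :=
  fun q hq => hg q (h.mem_iff.2 hq)

lemma split {Qs : List (V × List V)} {v : V} (h : v ∈ hd Qs) :
    ∃ t R, Qs.Perm ((v, t) :: R) := by
  obtain ⟨⟨v', t⟩, hq, rfl⟩ := List.mem_map.1 h
  obtain ⟨A, B, rfl⟩ := List.append_of_mem hq
  exact ⟨t, A ++ B, List.perm_middle⟩

lemma prepend {Qs : List (V × List V)} {u v : V} (hg : Gd s Qs) (hn : (fl Qs).Nodup)
    (hu : u ∈ hd Qs) (hs : s v u) :
    ∃ Ps, Gd s Ps ∧ (fl Ps).Perm (v :: fl Qs) ∧ Ps.length = Qs.length ∧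
      ∀ x ∈ hd Ps, x = v ∨ (x ∈ hd Qs ∧ x ≠ u) := by
  obtain ⟨t, R, hp⟩ := split hu
  have hg' := gd_perm hp hg
  have hn' : (u :: hd R).Nodup := (hd_perm hp).nodup_iff.1 (hn.sublist (hd_sub Qs))
  refine ⟨(v, u :: t) :: R, ?_, ?_, ?_, ?_⟩
  · intro q hq
    rcases List.mem_cons.1 hq with rfl | hq
    · intro p hp'
      rw [prs_cons_cons] at hp'
      rcases List.mem_cons.1 hp' with rfl | hp'
      · exact hs
      · exact hg' (u, t) List.mem_cons_self p hp'
    · exact hg' q (List.mem_cons_of_mem _ hq)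
  · have h1 := (fl_perm hp).symm
    rw [fl_cons] at h1 ⊢
    exact h1.cons v
  · rw [hp.length_eq]; rfl
  · intro x hx
    rw [hd_cons] at hx
    rcases List.mem_cons.1 hx with rfl | hy
    · exact Or.inl rfl
    · refine Or.inr ⟨(hd_perm hp).mem_iff.2 (List.mem_cons_of_mem _ hy), ?_⟩
      rintro rfl
      exact (List.nodup_cons.1 hn').1 hy

lemma step {a : ℕ} (H : ∀ l : List V, l.Nodup → a < l.length → ∃ v ∈ l, ∃ u ∈ l, v ≠ u ∧ s v u)
    (n : ℕ) : ∀ Qs : List (V × List V), (fl Qs).length ≤ n → Gd s Qs → (fl Qs).Nodup →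
      a < Qs.length → ∃ Ps, Gd s Ps ∧ (fl Ps).Perm (fl Qs) ∧ Ps.length + 1 = Qs.length ∧
        ∀ x ∈ hd Ps, x ∈ hd Qs := by
  induction n with
  | zero =>
    intro Qs h _ _ ha
    have h1 := (hd_sub Qs).length_le
    rw [hd_length] at h1
    omega
  | succ n ih =>
    intro Qs h hg hn ha
    obtain ⟨v, hv, u, hu, hvu, hs⟩ := H (hd Qs) (hn.sublist (hd_sub Qs)) (by rwa [hd_length])
    obtain ⟨t, R, hp⟩ := split hv
    have hg' := gd_perm hp hg
    have hf := fl_perm hp
    have hh := hd_perm hp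
    have hl : Qs.length = R.length + 1 := hp.length_eq
    rw [fl_cons] at hf
    rw [hd_cons] at hh
    have hn' := hf.nodup_iff.1 hn
    have huR : u ∈ hd R := by
      rcases List.mem_cons.1 (hh.mem_iff.1 hu) with h1 | h1
      · exact absurd h1.symm hvu
      · exact h1
    have hR : ∀ x ∈ hd R, x ∈ hd Qs := fun x hx => hh.mem_iff.2 (List.mem_cons_of_mem _ hx)
    have hgR : Gd s R := fun q hq => hg' q (List.mem_cons_of_mem _ hq)
    cases t with
    | nil =>
      obtain ⟨Ps, p1, p2, p3, p4⟩ := prepend hgR (List.nodup_cons.1 hn').2 huR hs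
      refine ⟨Ps, p1, p2.trans hf.symm, by omega, fun x hx => ?_⟩
      rcases p4 x hx with rfl | h1
      · exact hv
      · exact hR x h1.1
    | cons w rest =>
      have hvw : s v w := hg' (v, w :: rest) List.mem_cons_self (v, w) (by simp)
      have e : fl ((w, rest) :: R) = w :: rest ++ fl R := fl_cons _ _
      have hf' : (fl Qs).Perm (v :: fl ((w, rest) :: R)) := by rw [e]; exact hf
      have hn2 : (fl ((w, rest) :: R)).Nodup := (List.nodup_cons.1 (hf'.nodup_iff.1 hn)).2
      obtain ⟨Q2, q1, q2, q3, q4⟩ := ih ((w, rest) :: R)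
        (by have := hf'.length_eq; rw [List.length_cons] at this; omega)
        (by
          intro q hq
          rcases List.mem_cons.1 hq with rfl | hq
          · intro p hp'
            exact hg' (v, w :: rest) List.mem_cons_self p (List.mem_cons_of_mem _ hp')
          · exact hgR q hq)
        hn2 (by rw [List.length_cons]; omega)
      rw [List.length_cons] at q3
      have hn3 : (fl Q2).Nodup := q2.nodup_iff.2 hn2
      by_cases hw : w ∈ hd Q2
      · obtain ⟨Ps, p1, p2, p3, p4⟩ := prepend q1 hn3 hw hvw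
        refine ⟨Ps, p1, (p2.trans (q2.cons v)).trans hf'.symm, by omega, fun x hx => ?_⟩
        rcases p4 x hx with rfl | h1
        · exact hv
        · rcases List.mem_cons.1 (q4 x h1.1) with h2 | h2
          · exact absurd h2 h1.2
          · exact hR x h2
      · have hsub : hd Q2 ⊆ hd R := by
          intro x hx
          rcases List.mem_cons.1 (q4 x hx) with h2 | h2
          · have h3 : x = w := h2
            exact absurd (h3 ▸ hx) hw
          · exact h2
        have hpm : (hd Q2).Perm (hd R) :=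
          ((hn3.sublist (hd_sub Q2)).subperm hsub).perm_of_length_le (by
            rw [hd_length, hd_length]; omega)
        obtain ⟨Ps, p1, p2, p3, p4⟩ := prepend q1 hn3 (hpm.mem_iff.2 huR) hs
        refine ⟨Ps, p1, (p2.trans (q2.cons v)).trans hf'.symm, by omega, fun x hx => ?_⟩
        rcases p4 x hx with rfl | h1
        · exact hv
        · exact hR x (hsub h1.1)

lemma iter {a : ℕ} (H : ∀ l : List V, l.Nodup → a < l.length → ∃ v ∈ l, ∃ u ∈ l, v ≠ u ∧ s v u)
    (n : ℕ) : ∀ Qs : List (V × List V), Qs.length ≤ n → Gd s Qs → (fl Qs).Nodup →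
      ∃ Ps, Gd s Ps ∧ (fl Ps).Perm (fl Qs) ∧ Ps.length ≤ a := by
  induction n with
  | zero => exact fun Qs h hg _ => ⟨Qs, hg, List.Perm.refl _, by omega⟩
  | succ n ih =>
    intro Qs h hg hn
    by_cases ha : a < Qs.length
    · obtain ⟨Ps, p1, p2, p3, _⟩ := step H _ Qs le_rfl hg hn ha
      obtain ⟨Rs, r1, r2, r3⟩ := ih Ps (by omega) p1 (p2.nodup_iff.2 hn)
      exact ⟨Rs, r1, r2.trans p2, r3⟩
    · exact ⟨Qs, hg, List.Perm.refl _, by omega⟩

lemma fl_single (l : List V) : fl (l.map fun x => (x, ([] : List V))) = l := by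
  induction l with
  | nil => rfl
  | cons x l ih => rw [List.map_cons, fl_cons, ih]; rfl

end Gm

open Gm

theorem gm : GM := by
  intro V G r a hI hr W
  classical
  have H : ∀ l : List V, l.Nodup → a < l.length →
      ∃ v ∈ l, ∃ u ∈ l, v ≠ u ∧ (G.Adj v u ∧ r v u) := by
    intro l hl ha
    by_contra hc
    have h1 := hI l.toFinset (by
      intro x hx y hy hxy
      rw [List.mem_toFinset] at hx hy
      rcases hr x y hxy with h | h
      · exact hc ⟨x, hx, y, hy, hxy.ne, hxy, h⟩
      · exact hc ⟨y, hy, x, hx, hxy.ne', hxy.symm, h⟩)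
    rw [List.toFinset_card_of_nodup hl] at h1
    omega
  obtain ⟨Ps, p1, p2, p3⟩ := iter (s := fun x y => G.Adj x y ∧ r x y) H _
    (W.toList.map fun x => (x, ([] : List V))) le_rfl
    (by
      intro q hq p hp
      obtain ⟨x, _, rfl⟩ := List.mem_map.1 hq
      simp at hp)
    (by rw [fl_single]; exact W.nodup_toList)
  rw [fl_single] at p2
  refine ⟨Ps, p3, fun q hq => ⟨fun p hp => (p1 q hq p hp).1,
    bw_eq_zero.2 fun p hp => (p1 q hq p hp).2⟩, p2.nodup_iff.2 W.nodup_toList, fun z => ?_⟩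
  rw [p2.mem_iff, Finset.mem_toList]

end Pool.Agent.MP_bbfc69_co.HA
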