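import Pool.Agent.MP_bbfc69_co.HA.Spec

namespace Pool.Agent.MP_bbfc69_co.HA

namespace Link

variable {V : Type}

lemma last_form (s : V) (Q : List V) : ∃ A e, s :: Q = A ++ [e] := by
  induction Q generalizing s with
  | nil => exact ⟨[], s, rfl⟩
  | cons b Q ih =>
    obtain ⟨A, e, h⟩ := ih b
    exact ⟨s :: A, e, by rw [h]; rfl⟩

end Link

theorem link (hS : SHORT) (hC : CE) : LINK := by
  intro V _ G r a k P R y hI hRP hy hR Qs
  classical
  induction Qs with
  | nil =>
    intro e F hk he heF hyF hey _ _ _
    obtain ⟨Z, z1, z2, z3⟩ := hC V G a {z | z = e ∨ (z ∈ R ∧ z ∉ F)} e y hI (by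
      intro u hu v hv X hX huX hvX
      have hP : ∀ z, z ∈ {z | z = e ∨ (z ∈ R ∧ z ∉ F)} → z ∈ P ∧ z ∉ F := by
        rintro z (rfl | h)
        · exact ⟨he, heF⟩
        · exact ⟨hRP z h.1, h.2⟩
      have := hR u (hP u hu).1 v (hP v hv).1 (X ∪ F)
        ((Finset.card_union_le _ _).trans (by simp at hk; omega))
        (by simp [huX, (hP u hu).2]) (by simp [hvX, (hP v hv).2])
      refine this.mono ?_
      rintro z ⟨h1, h2⟩
      simp only [Finset.mem_union, not_or] at h2
      refine ⟨?_, h2.1⟩
      rcases h1 with h | rfl | rfl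
      · exact Or.inr ⟨h, h2.2⟩
      · exact hu
      · exact hv) (Or.inl rfl) (Or.inr ⟨hy, hyF⟩) hey
    refine ⟨Z, z1, z2, fun z => by rw [z3]; simp, ?_⟩
    have h1 := bw_le (r := r) e (Z ++ [y])
    have h2 : (e :: Z ++ [y]).toFinset.card ≤ (insert e R).card := by
      apply Finset.card_le_card
      intro z hz
      rcases (z3 z).1 (List.mem_toFinset.1 hz) with h | h
      · simp [h]
      · simp [h.1]
    rw [List.toFinset_card_of_nodup z2] at h2
    have h3 := Finset.card_insert_le e R
    simp only [List.cons_append, List.length_cons, List.length_nil] at h1 h2 ⊢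
    omega
  | cons q Qs ih =>
    intro e F hk he heF hyF hey hq hnd hz
    obtain ⟨s, Q⟩ := q
    obtain ⟨A, e', hA⟩ := Link.last_form s Q
    have hfl : fl ((s, Q) :: Qs) = A ++ e' :: fl Qs := by
      rw [fl_cons]; simp only; rw [hA]; simp
    have hs : s ∈ fl ((s, Q) :: Qs) := by simp
    have he' : e' ∈ fl ((s, Q) :: Qs) := by rw [hfl]; simp
    simp only [List.length_cons] at hk ⊢
    have hmul : (Qs.length + 1) * (2 * a + 1) = Qs.length * (2 * a + 1) + (2 * a + 1) := by ring
    obtain ⟨T, t1, t2, t3, t4⟩ := hS V G a _ e s hI (hz s hs).2.2.2.symm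
      (hR e he s (hz s hs).1 (insert y F) ((Finset.card_insert_le _ _).trans (by omega))
        (by simp [hey, heF])
        (by
          simp only [Finset.mem_insert, not_or]
          exact ⟨fun h => (hz s hs).2.1 (h ▸ hy), (hz s hs).2.2.1⟩))
    have heT : e ∉ T := by
      intro h
      simp only [List.cons_append, List.nodup_cons, List.mem_append, not_or] at t2
      exact t2.1.1 h
    have hsT : s ∉ T := by
      intro h
      simp only [List.cons_append, List.nodup_cons] at t2
      exact (List.nodup_append.1 t2.2).2.2 s h s (by simp) rfl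
    have hTn : T.Nodup := by
      simp only [List.cons_append, List.nodup_cons] at t2
      exact (List.nodup_append.1 t2.2).1
    have hT : ∀ z ∈ T, z ∈ R ∧ z ∉ F ∧ z ≠ y := by
      intro z h
      obtain ⟨h1, h2⟩ := t3 z h
      simp only [Finset.mem_insert, not_or] at h2
      refine ⟨?_, h2.2, h2.1⟩
      rcases h1 with h1 | rfl | rfl
      · exact h1
      · exact absurd h heT
      · exact absurd h hsT
    have hcard : (insert e (F ∪ T.toFinset)).card ≤ F.card + (2 * a + 1) := by
      have h1 := Finset.card_insert_le e (F ∪ T.toFinset)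
      have h2 := Finset.card_union_le F T.toFinset
      have h3 := List.toFinset_card_le T
      omega
    have hF' : ∀ z ∈ fl ((s, Q) :: Qs), z ∉ insert e (F ∪ T.toFinset) := by
      intro z h
      obtain ⟨_, h2, h3, h4⟩ := hz z h
      simp only [Finset.mem_insert, Finset.mem_union, List.mem_toFinset, not_or]
      exact ⟨h4, h3, fun h => h2 (hT z h).1⟩
    rw [hfl] at hnd
    have hnd1 := List.nodup_append.1 hnd
    have hnd2 := List.nodup_cons.1 hnd1.2.1
    obtain ⟨Z, z1, z2, z3, z4⟩ := ih e' (insert e (F ∪ T.toFinset)) (by omega) (hz e' he').1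
      (hF' e' he')
      (by
        simp only [Finset.mem_insert, Finset.mem_union, List.mem_toFinset, not_or]
        exact ⟨hey.symm, hyF, fun h => (hT y h).2.2 rfl⟩)
      (fun h => (hz e' he').2.1 (h ▸ hy)) (fun q h => hq q (List.mem_cons_of_mem _ h)) hnd2.2
      (by
        intro z h
        have h' : z ∈ fl ((s, Q) :: Qs) := by rw [hfl]; simp [h]
        exact ⟨(hz z h').1, (hz z h').2.1, hF' z h', fun e => hnd2.1 (e ▸ h)⟩)
    have hq0 := hq (s, Q) (by simp)
    simp only at hq0
    have key : e :: (T ++ A ++ e' :: Z) ++ [y] = (e :: T) ++ (A ++ (e' :: Z ++ [y])) := by simp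
    have key2 : e :: (T ++ A ++ e' :: Z) ++ [y] = (e :: T) ++ s :: (Q ++ (Z ++ [y])) := by
      rw [key, ← List.cons_append (a := s), hA]; simp
    have key3 : s :: (Q ++ (Z ++ [y])) = A ++ e' :: (Z ++ [y]) := by
      rw [← List.cons_append, hA]; simp
    have hAz : ∀ z ∈ A, z ∈ fl ((s, Q) :: Qs) := by
      intro z h; rw [hfl]; simp [h]
    refine ⟨T ++ A ++ e' :: Z, ?_, ?_, ?_, ?_⟩
    · rw [key2, ch_split, key3, ch_split A, ← hA]
      exact ⟨t1, hq0.1, z1⟩
    · rw [key, List.nodup_append, List.nodup_append]
      refine ⟨List.nodup_cons.2 ⟨heT, hTn⟩, ⟨hnd1.1, z2, ?_⟩, ?_⟩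
      · intro u hu v hv huv
        subst huv
        rcases (z3 u).1 hv with h | h | h
        · exact hnd1.2.2 u hu e' (by simp) h
        · exact (hz u (hAz u hu)).2.1 h.1
        · exact hnd1.2.2 u hu u (by simp [h]) rfl
      · intro u hu v hv huv
        subst huv
        have hu' : u ∈ insert e (F ∪ T.toFinset) := by
          rcases List.mem_cons.1 hu with h | h <;> simp [h]
        rcases List.mem_append.1 hv with h | h
        · exact hF' u (hAz u h) hu'
        · rcases (z3 u).1 h with h | h | h
          · exact hF' u (h ▸ he') hu'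
          · exact h.2 hu'
          · exact hF' u (by rw [hfl]; simp [h]) hu'
    · intro z
      rw [key, List.mem_append, List.mem_append, z3, hfl]
      simp only [List.mem_cons, List.mem_append, Finset.mem_insert, Finset.mem_union,
        List.mem_toFinset, not_or]
      constructor
      · rintro ((h | h) | h | h | h | h)
        · exact Or.inl h
        · exact Or.inr (Or.inl ⟨(hT z h).1, (hT z h).2.1⟩)
        · exact Or.inr (Or.inr (Or.inl h))
        · exact Or.inr (Or.inr (Or.inr (Or.inl h)))
        · exact Or.inr (Or.inl ⟨h.1, h.2.2.1⟩)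
        · exact Or.inr (Or.inr (Or.inr (Or.inr h)))
      · rintro (h | h | h | h | h)
        · exact Or.inl (Or.inl h)
        · by_cases e1 : z = e
          · exact Or.inl (Or.inl e1)
          · by_cases e2 : z ∈ T
            · exact Or.inl (Or.inr e2)
            · exact Or.inr (Or.inr (Or.inr (Or.inl ⟨h.1, e1, h.2, e2⟩)))
        · exact Or.inr (Or.inl h)
        · exact Or.inr (Or.inr (Or.inl h))
        · exact Or.inr (Or.inr (Or.inr (Or.inr h)))
    · rw [key2, bw_split, key3, bw_split A, ← hA, hq0.2]
      have h1 := bw_le (r := r) e (T ++ [s])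
      simp only [List.length_append, List.length_cons, List.length_nil, List.cons_append]
        at h1 z4 ⊢
      omega

end Pool.Agent.MP_bbfc69_co.HA
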