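import Pool.Agent.MP_bbfc69_co.HA.Spec2

namespace Pool.Agent.MP_bbfc69_co.HA

open Cut

namespace Mrg

variable {V : Type} {G : SimpleGraph V} {S : Finset V}

theorem prs_rev : ∀ L : List V, prs L.reverse = (prs L).reverse.map Prod.swap
  | [] => rfl
  | [_] => rfl
  | a :: b :: t => by
    have h := prs_rev (b :: t)
    have e := prs_split t.reverse b [a]
    simp only [List.reverse_cons, List.append_assoc, List.cons_append, List.nil_append,
      prs_cons_cons, List.map_append, List.map_cons, List.map_nil, Prod.swap_prod_mk,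
      prs_single] at h e ⊢
    rw [e, h]

theorem first (a b : V) {T : List V} (hT : ∀ z ∈ T, z ∉ S) (hb : b ∉ S) :
    ∃ y, y ∉ S ∧ (a, y) ∈ prs (a :: T ++ [b]) := by
  cases T with
  | nil => exact ⟨b, hb, by simp⟩
  | cons y T => exact ⟨y, hT y (by simp), by simp⟩

theorem tl {p x : V} {Y : List V} (h : Ch G (p :: Y ++ [x])) (hp : p ∈ S) (hY : ∀ z ∈ Y, z ∉ S)
    (hx : x ∉ S) : ∀ z ∈ p :: Y ++ [x], z ∉ S → Lk G {z | z ∉ S} z x := by
  intro z hz hS
  have h1 : Ch G (Y ++ [x]) := by
    cases Y with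
    | nil => simp
    | cons y Y => exact ((ch_cons_cons _ _ _).1 h).2
  have h2 : Ch G (x :: Y.reverse) := by simpa using ch_reverse h1
  refine (lk_of_ch h2 (fun w hw => ?_) z ?_).symm
  · rcases List.mem_cons.1 hw with rfl | hw
    · exact hx
    · exact hY w (List.mem_reverse.1 hw)
  · have : z ≠ p := fun e => hS (e ▸ hp)
    simp only [List.mem_cons, List.mem_append, List.not_mem_nil, List.mem_reverse] at hz ⊢
    tauto

end Mrg

open Mrg in
theorem mrg : MRG := by
  intro V G S v0 M0 A Y B1 Y' B T p x p' x' ⟨h1, h2, h3, h4⟩ e hp hp' adj hY hx hY' hx' hc hT hTS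
  classical
  obtain ⟨M1, e'⟩ : ∃ M1, v0 :: M1 = A ++ p :: p' :: (B1.reverse ++ x :: (T ++ x' :: B)) := by
    cases A with
    | nil => exact ⟨_, by rw [(List.cons.inj e).1]; rfl⟩
    | cons a A => exact ⟨_, by rw [(List.cons.inj e).1]; rfl⟩
  have e1 : prs (v0 :: M0 ++ [v0]) = prs (A ++ [p]) ++ (prs (p :: Y ++ [x]) ++
      (prs (x :: B1 ++ [p']) ++ (prs (p' :: Y' ++ [x']) ++ prs (x' :: (B ++ [v0]))))) := by
    have a1 := prs_split A p (Y ++ x :: (B1 ++ p' :: (Y' ++ x' :: (B ++ [v0]))))
    have a2 := prs_split (p :: Y) x (B1 ++ p' :: (Y' ++ x' :: (B ++ [v0])))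
    have a3 := prs_split (x :: B1) p' (Y' ++ x' :: (B ++ [v0]))
    have a4 := prs_split (p' :: Y') x' (B ++ [v0])
    rw [e]
    simp only [List.append_assoc, List.cons_append] at a1 a2 a3 a4 ⊢
    rw [a1, a2, a3, a4]
  have e2 : prs (v0 :: M1 ++ [v0]) = prs (A ++ [p]) ++ ((p, p') ::
      (prs (x :: B1 ++ [p']).reverse ++ (prs (x :: T ++ [x']) ++ prs (x' :: (B ++ [v0]))))) := by
    have a1 := prs_split A p (p' :: (B1.reverse ++ x :: (T ++ x' :: (B ++ [v0]))))
    have a2 := prs_split (p' :: B1.reverse) x (T ++ x' :: (B ++ [v0]))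
    have a3 := prs_split (x :: T) x' (B ++ [v0])
    rw [e']
    simp only [List.reverse_cons, List.reverse_append, List.append_assoc, List.cons_append,
      List.nil_append, List.reverse_nil, prs_cons_cons] at a1 a2 a3 ⊢
    rw [a1, a2, a3]
  have hS : ∀ z ∈ x :: T ++ [x'], z ∉ S := fun z hz => by
    simp only [List.mem_cons, List.mem_append, List.not_mem_nil, or_false] at hz
    rcases hz with (rfl | hz) | rfl
    exacts [hx, (hTS z hz).1, hx']
  have l0 : Lk G {z | z ∉ S} x' x := (lk_of_ch hc hS x' (by simp)).symm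
  obtain ⟨y, hy, hm⟩ := first x x' (fun z hz => (hTS z hz).1) hx'
  have hm' : (x, y) ∈ prs (v0 :: M1 ++ [v0]) := by
    rw [e2]
    simp only [List.mem_append, List.mem_cons, hm, true_or, or_true]
  have c2 : Ch G (p :: Y ++ [x]) := fun q hq => h1 q (by
    rw [e1]; simp only [List.mem_append, hq, true_or, or_true])
  have c3 : Ch G (x :: B1 ++ [p']) := fun q hq => h1 q (by
    rw [e1]; simp only [List.mem_append, hq, true_or, or_true])
  have c4 : Ch G (p' :: Y' ++ [x']) := fun q hq => h1 q (by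
    rw [e1]; simp only [List.mem_append, hq, true_or, or_true])
  have l2 := tl c2 hp hY hx
  have l4 := tl c4 hp' hY' hx'
  refine ⟨M1, ⟨fun q hq => ?_, ?_, fun z hz => ?_, fun w hw => ?_⟩, ?_⟩
  · rw [e2] at hq
    simp only [List.mem_append, List.mem_cons] at hq
    rcases hq with hq | rfl | hq | hq | hq
    · exact h1 q (by rw [e1]; simp only [List.mem_append, hq, true_or])
    · exact adj
    · exact ch_reverse c3 q hq
    · exact hc q hq
    · exact h1 q (by rw [e1]; simp only [List.mem_append, hq, or_true])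
  · have s : (A ++ p :: x :: (B1 ++ p' :: x' :: B)).Sublist (v0 :: M0) := by
      rw [e]
      refine .append_left (.cons_cons _ (.trans ?_ (List.sublist_append_right _ _))) _
      exact .cons_cons _ (.append_left (.cons_cons _ (List.sublist_append_right _ _)) _)
    have n : ((A ++ p :: x :: (B1 ++ p' :: x' :: B)) ++ T).Nodup :=
      List.nodup_append.2 ⟨h2.sublist s, hT, fun a ha b hb k => (hTS b hb).2 (k ▸ s.subset ha)⟩
    rw [e']
    refine (List.perm_iff_count.2 fun a => ?_).nodup_iff.1 n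
    simp only [List.count_append, List.count_cons, List.count_reverse]
    omega
  · have a := h3 z hz
    have a1 : z ∉ Y := fun k => hY z k hz
    have a2 : z ∉ Y' := fun k => hY' z k hz
    rw [e] at a
    rw [e']
    simp only [List.mem_cons, List.mem_append, List.mem_reverse] at a ⊢
    tauto
  · by_cases w1 : w ∈ Y
    · exact ⟨_, hm', hx, hy, l2 w (by simp [w1]) (hY w w1)⟩
    by_cases w2 : w ∈ Y'
    · exact ⟨_, hm', hx, hy, (l4 w (by simp [w2]) (hY' w w2)).trans l0⟩
    have hw' : w ∉ v0 :: M0 := by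
      rw [e'] at hw
      rw [e]
      simp only [List.mem_cons, List.mem_append, List.mem_reverse] at hw ⊢
      tauto
    obtain ⟨q, hq, q1, q2, q3⟩ := h4 w hw'
    have q4 := h1 q hq
    rw [e1] at hq
    simp only [List.mem_append] at hq
    rcases hq with hq | hq | hq | hq | hq
    · exact ⟨q, by rw [e2]; simp only [List.mem_append, hq, true_or], q1, q2, q3⟩
    · exact ⟨_, hm', hx, hy, q3.trans (l2 _ (prs_fst_mem hq) q1)⟩
    · refine ⟨(q.2, q.1), ?_, q2, q1, q3.trans (Lk.single q4 q1 q2)⟩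
      have := mem_prs_reverse.2 (show (q.1, q.2) ∈ _ from hq)
      rw [e2]
      simp only [List.mem_append, List.mem_cons, this, true_or, or_true]
    · exact ⟨_, hm', hx, hy, (q3.trans (l4 _ (prs_fst_mem hq) q1)).trans l0⟩
    · exact ⟨q, by rw [e2]; simp only [List.mem_append, List.mem_cons, hq, or_true], q1, q2, q3⟩
  · obtain ⟨u, hu, hn⟩ := first p x hY hx
    have k1 : 0 < cr S (p :: Y ++ [x]) := List.countP_pos_iff.2 ⟨_, hn, by simp [hp, hu]⟩
    have k2 : cr S (x :: T ++ [x']) = 0 := bw_eq_zero.2 fun q hq =>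
      iff_of_false (hS _ (prs_fst_mem hq)) (hS _ (prs_snd_mem hq))
    have k3 : cr S (x :: B1 ++ [p']).reverse = cr S (x :: B1 ++ [p']) := by
      unfold cr bw
      rw [prs_rev, List.countP_map, List.countP_reverse]
      exact List.countP_congr fun q _ => by simp [iff_comm]
    unfold cr bw at k1 k2 k3 ⊢
    rw [e1, e2]
    iterate 2 rw [List.countP_append]
    rw [List.countP_cons_of_neg (by simp [hp, hp'])]
    iterate 5 rw [List.countP_append]
    omega

end Pool.Agent.MP_bbfc69_co.HA
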