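import Pool.Agent.MP_bbfc69_co.HA.Spec2

namespace Pool.Agent.MP_bbfc69_co.HA

namespace Pig

theorem split {V : Type} (S : Finset V) (Y B C R : List V) (p x p' : V)
    (e : p :: (Y ++ x :: B) = C ++ p' :: R) (hp : p ≠ p') (hS : p' ∈ S) (hY : ∀ z ∈ Y, z ∉ S)
    (hx : x ∉ S) : ∃ B1, B = B1 ++ p' :: R := by
  cases C with
  | nil => exact (hp (List.cons.inj e).1).elim
  | cons c C =>
    rcases List.append_eq_append_iff.1 (List.cons.inj e).2 with ⟨D, -, h⟩ | ⟨D, h0, h⟩
    · cases D with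
      | nil => exact (hx ((List.cons.inj h).1 ▸ hS)).elim
      | cons d D => exact ⟨D, (List.cons.inj h).2⟩
    · cases D with
      | nil => exact (hx ((List.cons.inj h).1 ▸ hS)).elim
      | cons d D =>
        refine (hY p' ?_ hS).elim
        rw [h0, (List.cons.inj h).1]
        simp

end Pig

theorem ord : ORD := by
  intro V S A Y B A' Y' B' p x p' x' _ e hp h1 h2 h3 h4 h5 h6
  rcases List.append_eq_append_iff.1 e with ⟨C, -, h⟩ | ⟨C, -, h⟩
  · exact Or.inl (Pig.split S Y B C _ p x p' h hp h2 h3 h4)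
  · exact Or.inr (Pig.split S Y' B' C _ p' x' p h hp.symm h1 h5 h6)

theorem pig : PIG := by
  intro V G a U T u hI hU hT
  classical
  rcases T.eq_empty_or_nonempty with rfl | ⟨v, -⟩
  · simp
  have : Nonempty V := ⟨v⟩
  obtain ⟨f, f1, f2⟩ : ∃ f : V → V, (∀ p, Lk G U (u p) (f p)) ∧
      ∀ p q, Lk G U (u p) (u q) → f p = f q :=
    ⟨fun p => Classical.epsilon fun w => Lk G U (u p) w,
      fun p => Classical.epsilon_spec ⟨u p, Lk.refl _ _⟩, fun p q h =>
        congrArg Classical.epsilon (funext fun w => propext ⟨h.symm.trans, h.trans⟩)⟩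
  have h1 : (T.image f).card ≤ a := by
    refine hI _ fun y hy z hz h => ?_
    obtain ⟨p, hp, rfl⟩ := Finset.mem_image.1 hy
    obtain ⟨q, hq, rfl⟩ := Finset.mem_image.1 hz
    exact h.ne (f2 p q ((f1 p).trans ((Lk.single h ((f1 p).mem (hU p hp))
      ((f1 q).mem (hU q hq))).trans (f1 q).symm)))
  refine (Finset.card_le_mul_card_image (f := f) T a fun w _ => hI _ fun p hp q hq h => ?_).trans
    (Nat.mul_le_mul_left a h1)
  obtain ⟨p1, p2⟩ := Finset.mem_filter.1 hp
  obtain ⟨q1, q2⟩ := Finset.mem_filter.1 hq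
  exact hT p p1 q q1 h ((f1 p).trans ((p2.trans q2.symm) ▸ (f1 q).symm))

end Pool.Agent.MP_bbfc69_co.HA
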