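import Pool.Agent.MP_bbfc69_co.HA.Spec

/-! A bounded separator whose components are robustly connected. -/

namespace Pool.Agent.MP_bbfc69_co.HA

namespace Sep

/-- The bound for the separator after `j` rounds. -/
def bb (K : ℕ → ℕ) : ℕ → ℕ
  | 0 => 1
  | j + 1 => bb K j + K (bb K j)

theorem step {V : Type} {G : SimpleGraph V} {S T : Finset V} {k : ℕ} {u : V}
    (h1 : ∀ t ∈ T, t ∉ S) (h2 : ∀ t ∈ T, ∀ t' ∈ T, Lk G {w | w ∉ S} t t' → t = t')
    (h : ¬ Rob G {z | z ∉ S ∧ Lk G {w | w ∉ S} u z} k) :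
    ∃ S1 T1 : Finset V, S ⊆ S1 ∧ S1.card ≤ S.card + k ∧ T.card + 1 ≤ T1.card ∧
      (∀ t ∈ T1, t ∉ S1) ∧ ∀ t ∈ T1, ∀ t' ∈ T1, Lk G {w | w ∉ S1} t t' → t = t' := by
  classical
  unfold Rob at h
  push Not at h
  obtain ⟨x, hx, y, hy, X, hX, hxX, hyX, hl⟩ := h
  obtain ⟨P, hP⟩ : ∃ P : Set V, P = {z | z ∉ S ∧ Lk G {w | w ∉ S} u z} := ⟨_, rfl⟩
  have mP : ∀ z, z ∈ P ↔ z ∉ S ∧ Lk G {w | w ∉ S} u z := fun z => by rw [hP]; rfl
  rw [← hP] at hx hy hl
  have hxy : x ≠ y := fun e => hl (e ▸ Lk.refl _ _)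
  have mS : ∀ z, z ∉ S ∪ X.filter (· ∈ P) ↔ z ∉ S ∧ (z ∈ X → z ∉ P) := fun z => by simp
  have mono : ∀ {t t' : V}, Lk G {w | w ∉ S ∪ X.filter (· ∈ P)} t t' → Lk G {w | w ∉ S} t t' :=
    fun h => h.mono fun z hz => ((mS z).1 hz).1
  have stay : ∀ {t t' : V}, t ∈ P → Lk G {w | w ∉ S ∪ X.filter (· ∈ P)} t t' → t' ∈ P :=
    fun ht h => (mP _).2 ⟨(mono h).mem ((mP _).1 ht).1, ((mP _).1 ht).2.trans (mono h)⟩
  have walk : ∀ {z : V}, Lk G {w | w ∉ S ∪ X.filter (· ∈ P)} x z →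
      Lk G {z | z ∈ P ∧ z ∉ X} x z := by
    intro z h
    induction h with
    | refl => exact Lk.refl _ _
    | tail h3 h4 ih =>
      have h5 := stay hx h3
      have h6 := stay h5 (Lk.single h4.1 h4.2.1 h4.2.2)
      exact ih.trans (Lk.single h4.1 ⟨h5, fun e => ((mS _).1 h4.2.1).2 e h5⟩
        ⟨h6, fun e => ((mS _).1 h4.2.2).2 e h6⟩)
  refine ⟨S ∪ X.filter (· ∈ P), insert x (insert y (T.filter (· ∉ P))), Finset.subset_union_left,
    (Finset.card_union_le _ _).trans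
      (Nat.add_le_add_left ((Finset.card_filter_le _ _).trans hX) _), ?_, ?_, ?_⟩
  · have h3 : (T.filter (· ∈ P)).card ≤ 1 := by
      refine Finset.card_le_one.2 fun t ht t' ht' => ?_
      rw [Finset.mem_filter, mP] at ht ht'
      exact h2 t ht.1 t' ht'.1 (ht.2.2.symm.trans ht'.2.2)
    have h4 := Finset.card_filter_add_card_filter_not (s := T) (· ∈ P)
    rw [Finset.card_insert_of_notMem (by simp [hxy, hx]), Finset.card_insert_of_notMem (by simp [hy])]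
    omega
  · intro t ht
    simp only [Finset.mem_insert, Finset.mem_filter] at ht
    rw [mS]
    rcases ht with rfl | rfl | ht
    · exact ⟨((mP _).1 hx).1, fun e => absurd e hxX⟩
    · exact ⟨((mP _).1 hy).1, fun e => absurd e hyX⟩
    · exact ⟨h1 t ht.1, fun _ => ht.2⟩
  · intro t ht t' ht' h3
    simp only [Finset.mem_insert, Finset.mem_filter] at ht ht'
    rcases ht with rfl | rfl | ht <;> rcases ht' with rfl | rfl | ht'
    · rfl
    · exact absurd (walk h3) hl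
    · exact absurd (stay hx h3) ht'.2
    · exact absurd (walk h3.symm) hl
    · rfl
    · exact absurd (stay hy h3) ht'.2
    · exact absurd (stay hx h3.symm) ht.2
    · exact absurd (stay hy h3.symm) ht.2
    · exact h2 t ht.1 t' ht'.1 (mono h3)

end Sep

open Pool.Agent.MP_bbfc69_co.HA.Sep

theorem sep : SEP := by
  intro a K
  refine ⟨bb K (a + 1), fun V _ G v0 hI => ?_⟩
  have key : ∀ j, (∃ s : ℕ, s ≤ bb K j ∧ ∃ S : Finset V, v0 ∈ S ∧ S.card ≤ s ∧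
      ∀ u, u ∉ S → Rob G {z | z ∉ S ∧ Lk G {w | w ∉ S} u z} (K s)) ∨
      ∃ S T : Finset V, v0 ∈ S ∧ S.card ≤ bb K j ∧ j ≤ T.card ∧ (∀ t ∈ T, t ∉ S) ∧
        ∀ t ∈ T, ∀ t' ∈ T, Lk G {w | w ∉ S} t t' → t = t' := by
    intro j
    induction j with
    | zero => exact Or.inr ⟨{v0}, ∅, by simp, by simp [bb], by simp, by simp, by simp⟩
    | succ j ih =>
      rcases ih with ⟨s, hs, h⟩ | ⟨S, T, h1, h2, h3, h4, h5⟩
      · exact Or.inl ⟨s, hs.trans (Nat.le_add_right _ _), h⟩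
      · by_cases h : ∀ u, u ∉ S → Rob G {z | z ∉ S ∧ Lk G {w | w ∉ S} u z} (K (bb K j))
        · exact Or.inl ⟨bb K j, Nat.le_add_right _ _, S, h1, h2, h⟩
        · push Not at h
          obtain ⟨u, -, h⟩ := h
          obtain ⟨S1, T1, a1, a2, a3, a4, a5⟩ := step h4 h5 h
          exact Or.inr ⟨S1, T1, a1 h1, a2.trans (Nat.add_le_add_right h2 _), by omega, a4, a5⟩
  rcases key (a + 1) with h | ⟨S, T, -, -, h3, h4, h5⟩
  · exact h
  · have := hI T fun x hx y hy h => h.ne (h5 x hx y hy (Lk.single h (h4 x hx) (h4 y hy)))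
    omega

end Pool.Agent.MP_bbfc69_co.HA
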