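import Pool.Agent.MP_bbfc69_co.HA.Resv
import Pool.Agent.MP_bbfc69_co.HA.Sep

namespace Pool.Agent.MP_bbfc69_co.HA

theorem res2 (h : SHORT) {V : Type} [Fintype V] {G : SimpleGraph V} {a : ℕ} (k : ℕ) {P : Set V}
    {x y : V} (hI : Ind G a) (hP : Rob G P ((k + 1) * (2 * a))) (hx : x ∈ P) (hy : y ∈ P) :
    ∃ R : Finset V, R.card ≤ ((k + 1) * a + 2) +
        ((k + 1) * a + 2) * ((k + 1) * a + 2) * ((k + 1) * (2 * a)) ∧
      x ∈ R ∧ y ∈ R ∧ (∀ z ∈ R, z ∈ P) ∧ Res G P R k := by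
  classical
  obtain ⟨R, r1, r2, r3⟩ := Resv.dom hI P (k + 1)
  choose T t1 t2 t3 using Resv.paths h hI hP (k + 1) le_rfl
  set R1 := insert x (insert y R) with hR1
  have c1 : R1.card ≤ (k + 1) * a + 2 := by
    have := Finset.card_insert_le x (insert y R)
    have := Finset.card_insert_le y R
    rw [hR1]; omega
  have m1 : ∀ z ∈ R1, z ∈ P := by
    intro z hz
    simp only [hR1, Finset.mem_insert] at hz
    rcases hz with rfl | rfl | hz
    exacts [hx, hy, r1 z hz]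
  refine ⟨R1 ∪ (R1 ×ˢ R1).biUnion fun p => T p.1 p.2, ?_,
    Finset.mem_union_left _ (by simp [hR1]), Finset.mem_union_left _ (by simp [hR1]), ?_, ?_⟩
  · refine (Finset.card_union_le _ _).trans (Nat.add_le_add c1 ?_)
    refine (Finset.card_biUnion_le_card_mul _ _ _ fun p _ => t2 p.1 p.2).trans ?_
    rw [Finset.card_product]
    exact Nat.mul_le_mul_right _ (Nat.mul_le_mul c1 c1)
  · intro z hz
    rcases Finset.mem_union.1 hz with hz | hz
    · exact m1 z hz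
    · obtain ⟨p, -, hp⟩ := Finset.mem_biUnion.1 hz
      exact t1 _ _ z hp
  · intro u hu v hv X hX hu' hv'
    have st : ∀ w ∈ P, w ∉ X → (w = u ∨ w = v) → ∃ w1 ∈ R1, w1 ∉ X ∧
        Lk G {z | (z ∈ R1 ∪ (R1 ×ˢ R1).biUnion (fun p => T p.1 p.2) ∨ z = u ∨ z = v) ∧ z ∉ X}
          w w1 := by
      intro w hw hw' he
      by_cases hR : w ∈ R
      · exact ⟨w, by simp [hR1, hR], hw', Lk.refl _ _⟩
      · obtain ⟨w1, a1, a2, a3⟩ := r3 w hw hR X (by omega)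
        have a4 : w1 ∈ R1 := by simp [hR1, a1]
        exact ⟨w1, a4, a2, Lk.single a3 ⟨Or.inr he, hw'⟩ ⟨Or.inl (Finset.mem_union_left _ a4), a2⟩⟩
    obtain ⟨u1, a1, a2, a3⟩ := st u hu hu' (Or.inl rfl)
    obtain ⟨v1, b1, b2, b3⟩ := st v hv hv' (Or.inr rfl)
    refine a3.trans (((t3 u1 v1 (m1 _ a1) (m1 _ b1) X (by omega) a2 b2).mono ?_).trans b3.symm)
    rintro z ⟨z1, z2⟩
    refine ⟨Or.inl ?_, z2⟩
    rcases z1 with z1 | rfl | rfl
    · exact Finset.mem_union_right _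
        (Finset.mem_biUnion.2 ⟨(u1, v1), Finset.mem_product.2 ⟨a1, b1⟩, z1⟩)
    · exact Finset.mem_union_left _ a1
    · exact Finset.mem_union_left _ b1

theorem sep2 {V : Type} {G : SimpleGraph V} {a : ℕ} (K : ℕ) (v0 : V) (hI : Ind G a) :
    ∃ S : Finset V, v0 ∈ S ∧ S.card ≤ 1 + (a + 1) * K ∧
      ∀ u, u ∉ S → Rob G {z | z ∉ S ∧ Lk G {w | w ∉ S} u z} K := by
  have key : ∀ j, (∃ S : Finset V, v0 ∈ S ∧ S.card ≤ 1 + j * K ∧
      ∀ u, u ∉ S → Rob G {z | z ∉ S ∧ Lk G {w | w ∉ S} u z} K) ∨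
      ∃ S T : Finset V, v0 ∈ S ∧ S.card ≤ 1 + j * K ∧ j ≤ T.card ∧ (∀ t ∈ T, t ∉ S) ∧
        ∀ t ∈ T, ∀ t' ∈ T, Lk G {w | w ∉ S} t t' → t = t' := by
    intro j
    induction j with
    | zero => exact Or.inr ⟨{v0}, ∅, by simp, by simp, by simp, by simp, by simp⟩
    | succ j ih =>
      have e : (j + 1) * K = j * K + K := by ring
      rcases ih with ⟨S, h1, h2, h⟩ | ⟨S, T, h1, h2, h3, h4, h5⟩
      · exact Or.inl ⟨S, h1, by omega, h⟩
      · by_cases h : ∀ u, u ∉ S → Rob G {z | z ∉ S ∧ Lk G {w | w ∉ S} u z} K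
        · exact Or.inl ⟨S, h1, by omega, h⟩
        · push Not at h
          obtain ⟨u, -, h⟩ := h
          obtain ⟨S1, T1, a1, a2, a3, a4, a5⟩ := Sep.step h4 h5 h
          exact Or.inr ⟨S1, T1, a1 h1, by omega, by omega, a4, a5⟩
  rcases key (a + 1) with h | ⟨S, T, -, -, h3, h4, h5⟩
  · exact h
  · have := hI T fun x hx y hy h => h.ne (h5 x hx y hy (Lk.single h (h4 x hx) (h4 y hy)))
    omega

theorem lemb2 (h1 : SHORT) (h2 : GM) (h3 : LINK) {V : Type} [Fintype V] {G : SimpleGraph V}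
    {r : V → V → Prop} {a : ℕ} (ha : 1 ≤ a) (hI : Ind G a)
    (hr : ∀ x y, G.Adj x y → r x y ∨ r y x) : Span G r (780 * a ^ 9) (12 * a ^ 3) := by
  intro P x y hP hx hy hxy
  classical
  have p1 : a ≤ a ^ 2 := by nlinarith
  have p2 : a ^ 2 ≤ a ^ 3 := Nat.pow_le_pow_right ha (by norm_num)
  have p3 : a ^ 3 ≤ a ^ 9 := Nat.pow_le_pow_right ha (by norm_num)
  have e0 : a * (2 * a + 1) = 2 * a ^ 2 + a := by ring
  have k1 : a * (2 * a + 1) + a + 1 + 1 ≤ 6 * a ^ 2 := by omega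
  have k2 : (a * (2 * a + 1) + a + 1 + 1) * (2 * a) ≤ 12 * a ^ 3 :=
    (Nat.mul_le_mul_right _ k1).trans (le_of_eq (by ring))
  have k3 : (a * (2 * a + 1) + a + 1 + 1) * a + 2 ≤ 8 * a ^ 3 := by
    have : (a * (2 * a + 1) + a + 1 + 1) * a ≤ 6 * a ^ 3 :=
      (Nat.mul_le_mul_right _ k1).trans (le_of_eq (by ring))
    omega
  have k4 : ((a * (2 * a + 1) + a + 1 + 1) * a + 2) * ((a * (2 * a + 1) + a + 1 + 1) * a + 2) *
      ((a * (2 * a + 1) + a + 1 + 1) * (2 * a)) ≤ 768 * a ^ 9 :=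
    (Nat.mul_le_mul (Nat.mul_le_mul k3 k3) k2).trans (le_of_eq (by ring))
  obtain ⟨R, r1, r2, r3, r4, r5⟩ := res2 h1 (a * (2 * a + 1) + a + 1) hI
    (fun u hu v hv X hX => hP u hu v hv X (hX.trans k2)) hx hy
  obtain ⟨Qs, q1, q2, q3, q4⟩ := h2 V G r a hI hr (Finset.univ.filter (fun z => z ∈ P ∧ z ∉ R))
  have hm : Qs.length * (2 * a + 1) ≤ a * (2 * a + 1) := Nat.mul_le_mul_right _ q1
  obtain ⟨Z, z1, z2, z3, z4⟩ := h3 V G r a _ P R y hI r4 r3 r5 Qs x ∅ (by simp; omega) hx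
    (by simp) (by simp) hxy q2 q3 (by
      intro z hz
      have := (q4 z).1 hz
      simp only [Finset.mem_filter, Finset.mem_univ, true_and] at this
      exact ⟨this.1, this.2, by simp, fun e => this.2 (e ▸ r2)⟩)
  refine ⟨Z, z1, z2, fun z => ?_, by omega⟩
  rw [z3, q4]
  simp only [Finset.mem_filter, Finset.mem_univ, true_and, Finset.notMem_empty, not_false_eq_true,
    and_true]
  constructor
  · rintro (rfl | h | h)
    · exact hx
    · exact r4 z h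
    · exact h.1
  · intro h
    by_cases e : z ∈ R
    · exact Or.inr (Or.inl e)
    · exact Or.inr (Or.inr ⟨h, e⟩)

end Pool.Agent.MP_bbfc69_co.HA
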