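import Pool.Agent.MP_bbfc69_co.HA.Short
import Pool.Agent.MP_bbfc69_co.HA.Gm
import Pool.Agent.MP_bbfc69_co.HA.Ce
import Pool.Agent.MP_bbfc69_co.HA.Link
import Pool.Agent.MP_bbfc69_co.HA.Res2
import Pool.Agent.MP_bbfc69_co.HA.Abs2
import Pool.Agent.MP_bbfc69_co.HA.Cut2
import Pool.Agent.MP_bbfc69_co.HA.Pig
import Pool.Agent.MP_bbfc69_co.HA.Mrg

namespace Pool.Agent.MP_bbfc69_co.HA

theorem main2 {V : Type} [Fintype V] {G : SimpleGraph V} {r : V → V → Prop} {a : ℕ}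
    (hI : Ind G a) (hr : ∀ x y, G.Adj x y → r x y ∨ r y x) (v0 : V) (M : List V)
    (m1 : Ch G (v0 :: M ++ [v0])) (m2 : (v0 :: M).Nodup) (m3 : ∀ z, z ∈ v0 :: M) :
    ∃ M' : List V, Ch G (v0 :: M' ++ [v0]) ∧ (v0 :: M').Nodup ∧ (∀ z, z ∈ v0 :: M') ∧
      bw r (v0 :: M' ++ [v0]) ≤ 1000 * a ^ 10 := by
  have ha : 1 ≤ a := by simpa using hI {v0} (by simp)
  obtain ⟨S, s1, s2, s3⟩ := sep2 (a * a * (2 * a) + 12 * a ^ 3) v0 hI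
  obtain ⟨M0, ⟨c1, c2, c4, c5⟩, c3, c6⟩ := cut2 chord short mrg pig ord V G a _ S v0 M hI s1 m1 m2
    m3 (Nat.le_add_right _ _) s3
  obtain ⟨M', d1, d2, d3, d4⟩ := absorb2 (r := r) hI
    (lemb2 short gm (link short (ce short)) ha hI hr) s3 le_rfl c1 c2 c4 c5 c6
  refine ⟨M', d1, d2, d3, ?_⟩
  have p0 : 1 ≤ a ^ 4 := Nat.one_le_pow _ _ ha
  have p1 : 1 ≤ a ^ 5 := Nat.one_le_pow _ _ ha
  have p2 : a ^ 5 ≤ a ^ 10 := Nat.pow_le_pow_right ha (by norm_num)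
  have k1 : (a + 1) * (a * a * (2 * a) + 12 * a ^ 3) ≤ 28 * a ^ 4 :=
    (Nat.mul_le_mul_right _ (show a + 1 ≤ 2 * a by omega)).trans (le_of_eq (by ring))
  have k2 : (S.card + 1) * (2 * a + 1) ≤ 90 * a ^ 5 :=
    (Nat.mul_le_mul (show S.card + 1 ≤ 30 * a ^ 4 by omega)
      (show 2 * a + 1 ≤ 3 * a by omega)).trans (le_of_eq (by ring))
  have k3 : a * (780 * a ^ 9) = 780 * a ^ 10 := by ring
  omega

end Pool.Agent.MP_bbfc69_co.HA
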