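import Pool.Agent.MP_bbfc69_co.HA.Spec

/-! A reservoir of bounded size inside a robust set. -/

namespace Pool.Agent.MP_bbfc69_co.HA

namespace Resv

variable {V : Type} {G : SimpleGraph V} {a : ℕ}

theorem dom [Fintype V] (hI : Ind G a) (P : Set V) (t : ℕ) :
    ∃ R : Finset V, (∀ z ∈ R, z ∈ P) ∧ R.card ≤ t * a ∧ ∀ v ∈ P, v ∉ R →
      ∀ X : Finset V, X.card < t → ∃ w ∈ R, w ∉ X ∧ G.Adj v w := by
  classical
  induction t with
  | zero => exact ⟨∅, by simp, by simp, fun v _ _ X hX => absurd hX (by omega)⟩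
  | succ t ih =>
    obtain ⟨R, h1, h2, h3⟩ := ih
    obtain ⟨I, hm, hx⟩ := Finset.exists_max_image
      (Finset.univ.filter fun I : Finset V => (∀ z ∈ I, z ∈ P ∧ z ∉ R) ∧
        ∀ x ∈ I, ∀ y ∈ I, ¬ G.Adj x y) Finset.card ⟨∅, by simp⟩
    simp only [Finset.mem_filter, Finset.mem_univ, true_and] at hm hx
    refine ⟨R ∪ I, fun z hz => (Finset.mem_union.1 hz).elim (h1 z) fun h => (hm.1 z h).1, ?_, ?_⟩
    · have := Finset.card_union_le R I
      have := hI I hm.2
      rw [Nat.succ_mul]; omega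
    · intro v hv hv' X hX
      rw [Finset.mem_union, not_or] at hv'
      obtain ⟨w, hw, hvw⟩ : ∃ w ∈ I, G.Adj v w := by
        by_contra hn
        have := hx (insert v I) ⟨fun z hz => ?_, fun x hx y hy h => ?_⟩
        · rw [Finset.card_insert_of_notMem hv'.2] at this; omega
        · rcases Finset.mem_insert.1 hz with rfl | hz
          · exact ⟨hv, hv'.1⟩
          · exact hm.1 z hz
        · rcases Finset.mem_insert.1 hx with e | hx' <;> rcases Finset.mem_insert.1 hy with e' | hy'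
          · exact h.ne (e.trans e'.symm)
          · exact hn ⟨y, hy', e ▸ h⟩
          · exact hn ⟨x, hx', e' ▸ h.symm⟩
          · exact hm.2 x hx' y hy' h
      by_cases hwX : w ∈ X
      · have := Finset.card_erase_add_one hwX
        obtain ⟨w', a1, a2, a3⟩ := h3 v hv hv'.1 (X.erase w) (by omega)
        exact ⟨w', Finset.mem_union_left _ a1,
          fun h => a2 (Finset.mem_erase.2 ⟨fun e => (hm.1 w hw).2 (e ▸ a1), h⟩), a3⟩
      · exact ⟨w, Finset.mem_union_right _ hw, hwX, hvw⟩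

theorem paths (hS : SHORT) (hI : Ind G a) {P : Set V} {K : ℕ} (hP : Rob G P K) (j : ℕ)
    (hj : j * (2 * a) ≤ K) (u v : V) :
    ∃ T : Finset V, (∀ z ∈ T, z ∈ P) ∧ T.card ≤ j * (2 * a) ∧ (u ∈ P → v ∈ P →
      ∀ X : Finset V, X.card < j → u ∉ X → v ∉ X →
        Lk G {z | (z ∈ T ∨ z = u ∨ z = v) ∧ z ∉ X} u v) := by
  classical
  by_cases hu : u ∈ P
  swap
  · exact ⟨∅, by simp, by simp, fun h => absurd h hu⟩
  by_cases hv : v ∈ P
  swap
  · exact ⟨∅, by simp, by simp, fun _ h => absurd h hv⟩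
  by_cases huv : u = v
  · exact ⟨∅, by simp, by simp, fun _ _ X _ _ _ => huv ▸ Lk.refl _ _⟩
  induction j with
  | zero => exact ⟨∅, by simp, by simp, fun _ _ X hX => absurd hX (by omega)⟩
  | succ j ih =>
    rw [Nat.succ_mul] at hj ⊢
    obtain ⟨T, h1, h2, h3⟩ := ih (by omega)
    have hc : ((T.erase u).erase v).card ≤ K :=
      (Finset.card_erase_le.trans Finset.card_erase_le).trans (by omega)
    obtain ⟨L, l1, -, l3, l4⟩ := hS V G a _ u v hI huv (hP u hu v hv _ hc (by simp) (by simp))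
    refine ⟨T ∪ L.toFinset, fun z hz => (Finset.mem_union.1 hz).elim (h1 z)
      fun h => (l3 z (List.mem_toFinset.1 h)).1, ?_, fun _ _ X hX hu' hv' => ?_⟩
    · have := Finset.card_union_le T L.toFinset
      have := List.toFinset_card_le L
      omega
    · by_cases hz : ∃ z ∈ L, z ∈ X
      · obtain ⟨z, z1, z2⟩ := hz
        have zu : z ≠ u := fun e => hu' (e ▸ z2)
        have zv : z ≠ v := fun e => hv' (e ▸ z2)
        have zT : z ∉ T := fun h => (l3 z z1).2 (by simp [zu, zv, h])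
        have := Finset.card_erase_add_one z2
        refine (h3 hu hv (X.erase z) (by omega) (by simp [hu']) (by simp [hv'])).mono ?_
        rintro w ⟨w1, w2⟩
        refine ⟨w1.imp_left (Finset.mem_union_left _), fun h => w2 (Finset.mem_erase.2 ⟨?_, h⟩)⟩
        rintro rfl
        exact w1.elim zT fun h => h.elim zu zv
      · rw [List.cons_append] at l1
        refine lk_of_ch l1 (fun z hz' => ?_) v (by simp)
        simp only [List.mem_cons, List.mem_append, List.not_mem_nil, or_false] at hz'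
        rcases hz' with rfl | h | rfl
        · exact ⟨Or.inr (Or.inl rfl), hu'⟩
        · exact ⟨Or.inl (Finset.mem_union_right _ (List.mem_toFinset.2 h)), fun h' => hz ⟨z, h, h'⟩⟩
        · exact ⟨Or.inr (Or.inr rfl), hv'⟩

end Resv

theorem res (h : SHORT) : RES := by
  intro a k
  refine ⟨((k + 1) * a + 2) + ((k + 1) * a + 2) * ((k + 1) * a + 2) * ((k + 1) * (2 * a)),
    (k + 1) * (2 * a), ?_⟩
  intro V _ G P x y hI hP hx hy
  classical
  obtain ⟨R, r1, r2, r3⟩ := Resv.dom hI P (k + 1)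
  choose T t1 t2 t3 using Resv.paths h hI hP (k + 1) le_rfl
  set R1 := insert x (insert y R) with hR1
  have c1 : R1.card ≤ (k + 1) * a + 2 := by
    have := Finset.card_insert_le x (insert y R)
    have := Finset.card_insert_le y R
    rw [hR1]; omega
  have m1 : ∀ z ∈ R1, z ∈ P := by
    intro z hz
    simp only [hR1, Finset.mem_insert] at hz
    rcases hz with rfl | rfl | hz
    exacts [hx, hy, r1 z hz]
  refine ⟨R1 ∪ (R1 ×ˢ R1).biUnion fun p => T p.1 p.2, ?_,
    Finset.mem_union_left _ (by simp [hR1]), Finset.mem_union_left _ (by simp [hR1]), ?_, ?_⟩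
  · refine (Finset.card_union_le _ _).trans (Nat.add_le_add c1 ?_)
    refine (Finset.card_biUnion_le_card_mul _ _ _ fun p _ => t2 p.1 p.2).trans ?_
    rw [Finset.card_product]
    exact Nat.mul_le_mul_right _ (Nat.mul_le_mul c1 c1)
  · intro z hz
    rcases Finset.mem_union.1 hz with hz | hz
    · exact m1 z hz
    · obtain ⟨p, -, hp⟩ := Finset.mem_biUnion.1 hz
      exact t1 _ _ z hp
  · intro u hu v hv X hX hu' hv'
    have st : ∀ w ∈ P, w ∉ X → (w = u ∨ w = v) → ∃ w1 ∈ R1, w1 ∉ X ∧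
        Lk G {z | (z ∈ R1 ∪ (R1 ×ˢ R1).biUnion (fun p => T p.1 p.2) ∨ z = u ∨ z = v) ∧ z ∉ X}
          w w1 := by
      intro w hw hw' he
      by_cases hR : w ∈ R
      · exact ⟨w, by simp [hR1, hR], hw', Lk.refl _ _⟩
      · obtain ⟨w1, a1, a2, a3⟩ := r3 w hw hR X (by omega)
        have a4 : w1 ∈ R1 := by simp [hR1, a1]
        exact ⟨w1, a4, a2, Lk.single a3 ⟨Or.inr he, hw'⟩ ⟨Or.inl (Finset.mem_union_left _ a4), a2⟩⟩
    obtain ⟨u1, a1, a2, a3⟩ := st u hu hu' (Or.inl rfl)
    obtain ⟨v1, b1, b2, b3⟩ := st v hv hv' (Or.inr rfl)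
    refine a3.trans (((t3 u1 v1 (m1 _ a1) (m1 _ b1) X (by omega) a2 b2).mono ?_).trans b3.symm)
    rintro z ⟨z1, z2⟩
    refine ⟨Or.inl ?_, z2⟩
    rcases z1 with z1 | rfl | rfl
    · exact Finset.mem_union_right _
        (Finset.mem_biUnion.2 ⟨(u1, v1), Finset.mem_product.2 ⟨a1, b1⟩, z1⟩)
    · exact Finset.mem_union_left _ a1
    · exact Finset.mem_union_left _ b1

end Pool.Agent.MP_bbfc69_co.HA
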