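import Pool.Agent.MP_bbfc69_co.HA.Spec

namespace Pool.Agent.MP_bbfc69_co.HA

namespace Short

variable {V : Type} {G : SimpleGraph V}

lemma indep (k : ℕ) : ∀ Z : List V, Z.Nodup → 2 * k + 1 ≤ Z.length →
    (∀ A x Y y B, Z = A ++ x :: (Y ++ y :: B) → Y ≠ [] → ¬ G.Adj x y) →
      ∃ I : Finset V, I.card = k + 1 ∧ (∀ x ∈ I, x ∈ Z) ∧ ∀ x ∈ I, ∀ y ∈ I, ¬ G.Adj x y := by
  classical
  induction k with
  | zero =>
    intro Z _ h _
    obtain _ | ⟨x, Z⟩ := Z
    · simp at h
    · exact ⟨{x}, by simp, by simp, by simp⟩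
  | succ k ih =>
    intro Z h1 h2 h3
    obtain _ | ⟨x, _ | ⟨w, Z⟩⟩ := Z
    · simp at h2
    · simp at h2
    simp only [List.nodup_cons, List.mem_cons, not_or] at h1
    obtain ⟨I, a1, a2, a3⟩ := ih Z h1.2.2 (by simp at h2; omega) fun A p Y q B e =>
      h3 (x :: w :: A) p Y q B (by rw [e]; rfl)
    have hx : ∀ y ∈ I, ¬ G.Adj x y := fun y hy => by
      obtain ⟨Y, B, e⟩ := List.append_of_mem (a2 y hy)
      exact h3 [] x (w :: Y) y B (by rw [e]; rfl) (by simp)
    refine ⟨insert x I, by rw [Finset.card_insert_of_notMem fun q => h1.1.2 (a2 x q), a1],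
      fun y hy => ?_, fun p hp q hq => ?_⟩
    · rcases Finset.mem_insert.1 hy with e | e
      · simp [e]
      · simp [a2 y e]
    · rcases Finset.mem_insert.1 hp with e | e <;> rcases Finset.mem_insert.1 hq with e' | e'
      · simp [e, e']
      · exact e ▸ hx q e'
      · exact e' ▸ fun k => hx p e k.symm
      · exact a3 p e q e'

lemma dup {L : List V} (h : ¬ L.Nodup) : ∃ A x Y B, L = A ++ x :: (Y ++ x :: B) := by
  induction L with
  | nil => simp at h
  | cons a L ih =>
    by_cases q : a ∈ L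
    · obtain ⟨Y, B, e⟩ := List.append_of_mem q
      exact ⟨[], a, Y, B, by rw [e]; rfl⟩
    · obtain ⟨A, x, Y, B, e⟩ := ih fun k => h (List.nodup_cons.2 ⟨q, k⟩)
      exact ⟨a :: A, x, Y, B, by rw [e]; rfl⟩

lemma parts {A Y B : List V} {x y : V} (h : Ch G (A ++ x :: (Y ++ y :: B))) :
    Ch G (A ++ [x]) ∧ Ch G (y :: B) :=
  ⟨((ch_split _ _ _).1 h).1, ((ch_split (x :: Y) y B).1 ((ch_split _ _ _).1 h).2).2⟩

lemma last (A Y B : List V) (x y : V) :
    (A ++ x :: (Y ++ y :: B)).getLast? = (y :: B).getLast? := by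
  rw [List.getLast?_append_cons, ← List.cons_append, List.getLast?_append_cons]

lemma walk {U : Set V} {u v : V} (h : Lk G U u v) : u = v ∨
    ∃ T : List V, Ch G (u :: T ++ [v]) ∧ ∀ z ∈ u :: T ++ [v], z ∈ U := by
  induction h with
  | refl => exact Or.inl rfl
  | @tail b c _ k ih =>
    right
    rcases ih with rfl | ⟨T, h1, h2⟩
    · exact ⟨[], by simpa using k.1, by simpa using k.2⟩
    · refine ⟨T ++ [b], ?_, fun z hz => ?_⟩
      · have := (ch_split (G := G) (u :: T) b [c]).2 ⟨h1, by simpa using k.1⟩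
        simpa using this
      · rcases List.mem_append.1 hz with e | e
        · exact h2 z (by simpa using e)
        · exact List.mem_singleton.1 e ▸ k.2.2

end Short

theorem chord : CHORD := by
  intro V G a hI Z h1 h2
  by_contra q
  obtain ⟨I, a1, -, a3⟩ := Short.indep (G := G) a Z h1 h2 fun A x Y y B e k k' =>
    q ⟨A, x, Y, y, B, e, k, k'⟩
  have := hI I a3
  omega

theorem short : SHORT := by
  intro V G a U u v hI huv h
  classical
  have ex : ∃ n, ∃ L : List V, L.length = n ∧ Ch G L ∧ L.head? = some u ∧ L.getLast? = some v ∧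
      ∀ z ∈ L, z ∈ U := by
    obtain ⟨T, h1, h2⟩ := (Short.walk h).resolve_left huv
    exact ⟨_, _, rfl, h1, by simp, by rw [List.getLast?_append_cons]; rfl, h2⟩
  obtain ⟨L, e, h1, h2, h3, h4⟩ := Nat.find_spec ex
  have mn : ∀ L' : List V, Ch G L' → L'.head? = some u → L'.getLast? = some v →
      (∀ z ∈ L', z ∈ L) → L.length ≤ L'.length := fun L' a b c d =>
    e ▸ Nat.find_min' ex ⟨L', rfl, a, b, c, fun z hz => h4 z (d z hz)⟩
  have nd : L.Nodup := by
    by_contra q
    obtain ⟨A, x, Y, B, rfl⟩ := Short.dup q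
    have := mn (A ++ x :: B) ((ch_split _ _ _).2 (Short.parts h1))
      (by simpa [List.head?_append] using h2)
      (by rw [List.getLast?_append_cons, ← h3, Short.last]) (by simp; tauto)
    simp at this
    omega
  have len : L.length ≤ 2 * a := by
    by_contra q
    obtain ⟨A, x, Y, y, B, rfl, k, k'⟩ := chord V G a hI L nd (by omega)
    have m := mn (A ++ x :: ([] ++ y :: B))
      ((ch_split _ _ _).2 ⟨(Short.parts h1).1, (ch_cons_cons _ _ _).2 ⟨k', (Short.parts h1).2⟩⟩)
      (by simpa [List.head?_append] using h2) (by rw [← h3, Short.last, Short.last])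
      (by simp; tauto)
    have := List.length_pos_iff.2 k
    simp only [List.length_append, List.length_cons, List.length_nil] at m
    omega
  obtain _ | ⟨x, L⟩ := L
  · simp at h2
  obtain rfl : x = u := by simpa using h2
  rcases List.eq_nil_or_concat L with rfl | ⟨T, y, rfl⟩
  · exact absurd (by simpa using h3) huv
  rw [List.concat_eq_append] at *
  obtain rfl : y = v := by
    rw [← List.cons_append, List.getLast?_append_cons] at h3
    simpa using h3
  exact ⟨T, h1, nd, fun z hz => h4 z (by simp [hz]), by simp at len; omega⟩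

end Pool.Agent.MP_bbfc69_co.HA
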