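import Mathlib

namespace Pool.Agent.MP_bbfc69_co.HA

variable {V : Type}

/-- The consecutive pairs of a list. -/
def prs : List V → List (V × V)
  | a :: b :: t => (a, b) :: prs (b :: t)
  | _ => []

/-- Consecutive entries are adjacent. -/
def Ch (G : SimpleGraph V) (L : List V) : Prop := ∀ p ∈ prs L, G.Adj p.1 p.2

open Classical in
/-- The number of steps that are not forward arcs. -/
noncomputable def bw (r : V → V → Prop) (L : List V) : ℕ :=
  (prs L).countP (fun p => ¬ r p.1 p.2)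

/-- Linked inside `U`. -/
def Lk (G : SimpleGraph V) (U : Set V) (u v : V) : Prop :=
  Relation.ReflTransGen (fun x y => G.Adj x y ∧ x ∈ U ∧ y ∈ U) u v

/-- `P` stays connected after deleting at most `K` vertices. -/
def Rob (G : SimpleGraph V) (P : Set V) (K : ℕ) : Prop :=
  ∀ u ∈ P, ∀ v ∈ P, ∀ X : Finset V, X.card ≤ K → u ∉ X → v ∉ X →
    Lk G {z | z ∈ P ∧ z ∉ X} u v

/-- Independent sets have at most `a` vertices. -/
def Ind (G : SimpleGraph V) (a : ℕ) : Prop :=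
  ∀ I : Finset V, (∀ x ∈ I, ∀ y ∈ I, ¬ G.Adj x y) → I.card ≤ a

/-- All vertices of a family of nonempty paths. -/
def fl (Qs : List (V × List V)) : List V := Qs.flatMap (fun q => q.1 :: q.2)

/-- `R` links any two vertices of `P` after deleting at most `k` vertices. -/
def Res (G : SimpleGraph V) (P : Set V) (R : Finset V) (k : ℕ) : Prop :=
  ∀ u ∈ P, ∀ v ∈ P, ∀ X : Finset V, X.card ≤ k → u ∉ X → v ∉ X →
    Lk G {z | (z ∈ R ∨ z = u ∨ z = v) ∧ z ∉ X} u v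

/-- A robust set has spanning paths with prescribed ends and few backward steps. -/
def Span (G : SimpleGraph V) (r : V → V → Prop) (g K : ℕ) : Prop :=
  ∀ (P : Set V) (x y : V), Rob G P K → x ∈ P → y ∈ P → x ≠ y →
    ∃ Z : List V, Ch G (x :: Z ++ [y]) ∧ (x :: Z ++ [y]).Nodup ∧
      (∀ z, z ∈ x :: Z ++ [y] ↔ z ∈ P) ∧ bw r (x :: Z ++ [y]) ≤ g

@[simp] lemma prs_nil : prs ([] : List V) = [] := rfl
@[simp] lemma prs_single (a : V) : prs [a] = [] := rfl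
@[simp] lemma prs_cons_cons (a b : V) (t : List V) :
    prs (a :: b :: t) = (a, b) :: prs (b :: t) := rfl

@[simp] lemma fl_nil : fl ([] : List (V × List V)) = [] := rfl
@[simp] lemma fl_cons (q : V × List V) (Qs : List (V × List V)) :
    fl (q :: Qs) = q.1 :: q.2 ++ fl Qs := by simp [fl]
lemma fl_append (Ps Qs : List (V × List V)) : fl (Ps ++ Qs) = fl Ps ++ fl Qs := by simp [fl]

lemma prs_split (A : List V) (x : V) (B : List V) :
    prs (A ++ x :: B) = prs (A ++ [x]) ++ prs (x :: B) := by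
  induction A with
  | nil => simp
  | cons a A ih =>
    cases A with
    | nil => simp
    | cons b A => simpa using ih

lemma mem_prs {L : List V} {p q : V} : (p, q) ∈ prs L ↔ ∃ A B, L = A ++ p :: q :: B := by
  constructor
  · intro h
    induction L with
    | nil => simp at h
    | cons a L ih =>
      cases L with
      | nil => simp at h
      | cons b L =>
        simp only [prs_cons_cons, List.mem_cons, Prod.mk.injEq] at h
        rcases h with ⟨rfl, rfl⟩ | h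
        · exact ⟨[], L, rfl⟩
        · obtain ⟨A, B, e⟩ := ih h
          exact ⟨a :: A, B, by rw [e]; rfl⟩
  · rintro ⟨A, B, rfl⟩
    rw [prs_split]
    simp

lemma prs_fst_mem {L : List V} {p : V × V} (h : p ∈ prs L) : p.1 ∈ L := by
  obtain ⟨A, B, e⟩ := (mem_prs (p := p.1) (q := p.2)).1 h
  rw [e]; simp

lemma prs_snd_mem {L : List V} {p : V × V} (h : p ∈ prs L) : p.2 ∈ L := by
  obtain ⟨A, B, e⟩ := (mem_prs (p := p.1) (q := p.2)).1 h
  rw [e]; simp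

lemma length_prs (a : V) (L : List V) : (prs (a :: L)).length = L.length := by
  induction L generalizing a with
  | nil => rfl
  | cons b L ih => simp [ih]

lemma mem_prs_reverse {L : List V} {p q : V} : (p, q) ∈ prs L.reverse ↔ (q, p) ∈ prs L := by
  rw [mem_prs, mem_prs]
  constructor
  · rintro ⟨A, B, e⟩
    refine ⟨B.reverse, A.reverse, ?_⟩
    rw [← List.reverse_reverse L, e]; simp
  · rintro ⟨A, B, rfl⟩
    exact ⟨B.reverse, A.reverse, by simp⟩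

variable {G : SimpleGraph V} {r : V → V → Prop}

@[simp] lemma ch_nil : Ch G [] := by simp [Ch]
@[simp] lemma ch_single (a : V) : Ch G [a] := by simp [Ch]
@[simp] lemma ch_cons_cons (a b : V) (t : List V) :
    Ch G (a :: b :: t) ↔ G.Adj a b ∧ Ch G (b :: t) := by simp [Ch]

lemma ch_split (A : List V) (x : V) (B : List V) :
    Ch G (A ++ x :: B) ↔ Ch G (A ++ [x]) ∧ Ch G (x :: B) := by
  unfold Ch
  rw [prs_split]
  simp only [List.mem_append]
  exact ⟨fun h => ⟨fun p hp => h p (Or.inl hp), fun p hp => h p (Or.inr hp)⟩,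
    fun h p hp => hp.elim (h.1 p) (h.2 p)⟩

lemma ch_reverse {L : List V} (h : Ch G L) : Ch G L.reverse := by
  rintro ⟨p, q⟩ hp
  exact (h (q, p) (mem_prs_reverse.1 hp)).symm

lemma bw_split (A : List V) (x : V) (B : List V) :
    bw r (A ++ x :: B) = bw r (A ++ [x]) + bw r (x :: B) := by
  unfold bw
  rw [prs_split, List.countP_append]

lemma bw_le (a : V) (L : List V) : bw r (a :: L) ≤ L.length := by
  unfold bw
  exact List.countP_le_length.trans (length_prs a L).le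

lemma bw_eq_zero {L : List V} : bw r L = 0 ↔ ∀ p ∈ prs L, r p.1 p.2 := by
  unfold bw
  simp [List.countP_eq_zero]

lemma Lk.refl (U : Set V) (u : V) : Lk G U u u := Relation.ReflTransGen.refl

lemma Lk.trans {U : Set V} {u v w : V} (h : Lk G U u v) (h' : Lk G U v w) : Lk G U u w :=
  Relation.ReflTransGen.trans h h'

lemma Lk.single {U : Set V} {u v : V} (h : G.Adj u v) (hu : u ∈ U) (hv : v ∈ U) : Lk G U u v :=
  Relation.ReflTransGen.single ⟨h, hu, hv⟩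

lemma Lk.symm {U : Set V} {u v : V} (h : Lk G U u v) : Lk G U v u := by
  induction h with
  | refl => exact Lk.refl _ _
  | tail _ h ih => exact (Lk.single h.1.symm h.2.2 h.2.1).trans ih

lemma Lk.mono {U U' : Set V} {u v : V} (h : Lk G U u v) (hU : ∀ z ∈ U, z ∈ U') :
    Lk G U' u v := by
  induction h with
  | refl => exact Lk.refl _ _
  | tail _ h ih => exact ih.trans (Lk.single h.1 (hU _ h.2.1) (hU _ h.2.2))

lemma Lk.mem {U : Set V} {u v : V} (h : Lk G U u v) (hu : u ∈ U) : v ∈ U := by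
  induction h with
  | refl => exact hu
  | tail _ h _ => exact h.2.2

/-- The entries of a chain inside `U` are linked to its head. -/
lemma lk_of_ch {U : Set V} {a : V} {L : List V} (h : Ch G (a :: L)) (hU : ∀ z ∈ a :: L, z ∈ U) :
    ∀ z ∈ a :: L, Lk G U a z := by
  induction L generalizing a with
  | nil => intro z hz; simp at hz; rw [hz]; exact Lk.refl _ _
  | cons b L ih =>
    intro z hz
    rw [ch_cons_cons] at h
    rcases List.mem_cons.1 hz with rfl | hz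
    · exact Lk.refl _ _
    · exact (Lk.single h.1 (hU _ (by simp)) (hU _ (by simp))).trans
        (ih h.2 (fun z hz => hU z (List.mem_cons_of_mem _ hz)) z hz)

def CHORD : Prop :=
  ∀ (V : Type) (G : SimpleGraph V) (a : ℕ), Ind G a → ∀ Z : List V, Z.Nodup →
    2 * a + 1 ≤ Z.length →
      ∃ (A : List V) (x : V) (Y : List V) (y : V) (B : List V),
        Z = A ++ x :: (Y ++ y :: B) ∧ Y ≠ [] ∧ G.Adj x y

def SHORT : Prop :=
  ∀ (V : Type) (G : SimpleGraph V) (a : ℕ) (U : Set V) (u v : V), Ind G a → u ≠ v → Lk G U u v →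
    ∃ T : List V, Ch G (u :: T ++ [v]) ∧ (u :: T ++ [v]).Nodup ∧ (∀ z ∈ T, z ∈ U) ∧
      T.length ≤ 2 * a

def GM : Prop :=
  ∀ (V : Type) (G : SimpleGraph V) (r : V → V → Prop) (a : ℕ), Ind G a →
    (∀ x y, G.Adj x y → r x y ∨ r y x) → ∀ W : Finset V,
      ∃ Qs : List (V × List V), Qs.length ≤ a ∧
        (∀ q ∈ Qs, Ch G (q.1 :: q.2) ∧ bw r (q.1 :: q.2) = 0) ∧ (fl Qs).Nodup ∧
          ∀ z, z ∈ fl Qs ↔ z ∈ W

def CE : Prop :=
  ∀ (V : Type) [Fintype V] (G : SimpleGraph V) (a : ℕ) (R : Set V) (x y : V), Ind G a →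
    Rob G R a → x ∈ R → y ∈ R → x ≠ y →
      ∃ Z : List V, Ch G (x :: Z ++ [y]) ∧ (x :: Z ++ [y]).Nodup ∧
        ∀ z, z ∈ x :: Z ++ [y] ↔ z ∈ R

def RES : Prop :=
  ∀ a k : ℕ, ∃ ρ K : ℕ, ∀ (V : Type) [Fintype V] (G : SimpleGraph V) (P : Set V) (x y : V),
    Ind G a → Rob G P K → x ∈ P → y ∈ P →
      ∃ R : Finset V, R.card ≤ ρ ∧ x ∈ R ∧ y ∈ R ∧ (∀ z ∈ R, z ∈ P) ∧ Res G P R k

def LINK : Prop :=
  ∀ (V : Type) [Fintype V] (G : SimpleGraph V) (r : V → V → Prop) (a k : ℕ) (P : Set V)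
    (R : Finset V) (y : V), Ind G a → (∀ z ∈ R, z ∈ P) → y ∈ R → Res G P R k →
      ∀ (Qs : List (V × List V)) (e : V) (F : Finset V),
        F.card + Qs.length * (2 * a + 1) + a + 1 ≤ k → e ∈ P → e ∉ F → y ∉ F → e ≠ y →
        (∀ q ∈ Qs, Ch G (q.1 :: q.2) ∧ bw r (q.1 :: q.2) = 0) → (fl Qs).Nodup →
        (∀ z ∈ fl Qs, z ∈ P ∧ z ∉ R ∧ z ∉ F ∧ z ≠ e) →
          ∃ Z : List V, Ch G (e :: Z ++ [y]) ∧ (e :: Z ++ [y]).Nodup ∧
            (∀ z, z ∈ e :: Z ++ [y] ↔ z = e ∨ (z ∈ R ∧ z ∉ F) ∨ z ∈ fl Qs) ∧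
              bw r (e :: Z ++ [y]) ≤ Qs.length * (2 * a + 1) + R.card + 1

def LEMB : Prop :=
  ∀ a : ℕ, ∃ g K : ℕ, ∀ (V : Type) [Fintype V] (G : SimpleGraph V) (r : V → V → Prop),
    Ind G a → (∀ x y, G.Adj x y → r x y ∨ r y x) → Span G r g K

def SEP : Prop :=
  ∀ (a : ℕ) (K : ℕ → ℕ), ∃ B : ℕ, ∀ (V : Type) [Fintype V] (G : SimpleGraph V) (v0 : V),
    Ind G a → ∃ s : ℕ, s ≤ B ∧ ∃ S : Finset V, v0 ∈ S ∧ S.card ≤ s ∧
      ∀ u, u ∉ S → Rob G {z | z ∉ S ∧ Lk G {w | w ∉ S} u z} (K s)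

def CUT : Prop :=
  ∀ (V : Type) (G : SimpleGraph V) (a : ℕ) (S : Finset V) (v0 : V) (M : List V), Ind G a →
    v0 ∈ S → Ch G (v0 :: M ++ [v0]) → (v0 :: M).Nodup → (∀ z, z ∈ v0 :: M) →
      ∃ M0 : List V, Ch G (v0 :: M0 ++ [v0]) ∧ (v0 :: M0).Nodup ∧
        M0.length ≤ (S.card + 1) * (2 * a + 1) ∧ (∀ z ∈ S, z ∈ v0 :: M0) ∧
          ∀ w, w ∉ v0 :: M0 → ∃ p ∈ prs (v0 :: M0 ++ [v0]),
            p.1 ∉ S ∧ p.2 ∉ S ∧ Lk G {z | z ∉ S} w p.1

def ABS : Prop :=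
  ∀ (V : Type) [Fintype V] (G : SimpleGraph V) (r : V → V → Prop) (a g K f : ℕ) (S : Finset V)
    (v0 : V) (M0 : List V), Ind G a → Span G r g K →
      (∀ u, u ∉ S → Rob G {z | z ∉ S ∧ Lk G {w | w ∉ S} u z} (f + K)) → M0.length + 1 ≤ f →
      Ch G (v0 :: M0 ++ [v0]) → (v0 :: M0).Nodup → (∀ z ∈ S, z ∈ v0 :: M0) →
      (∀ w, w ∉ v0 :: M0 → ∃ p ∈ prs (v0 :: M0 ++ [v0]),
        p.1 ∉ S ∧ p.2 ∉ S ∧ Lk G {z | z ∉ S} w p.1) →
        ∃ M : List V, Ch G (v0 :: M ++ [v0]) ∧ (v0 :: M).Nodup ∧ (∀ z, z ∈ v0 :: M) ∧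
          bw r (v0 :: M ++ [v0]) ≤ f + a * g

def MAIN : Prop :=
  ∀ a : ℕ, ∃ g : ℕ, ∀ (V : Type) [Fintype V] (G : SimpleGraph V) (r : V → V → Prop),
    Ind G a → (∀ x y, G.Adj x y → r x y ∨ r y x) → ∀ (v0 : V) (M : List V),
      Ch G (v0 :: M ++ [v0]) → (v0 :: M).Nodup → (∀ z, z ∈ v0 :: M) →
        ∃ M' : List V, Ch G (v0 :: M' ++ [v0]) ∧ (v0 :: M').Nodup ∧ (∀ z, z ∈ v0 :: M') ∧
          bw r (v0 :: M' ++ [v0]) ≤ g

theorem lemb (h1 : RES) (h2 : GM) (h3 : LINK) : LEMB := by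
  intro a
  obtain ⟨ρ, K, h⟩ := h1 a (a * (2 * a + 1) + a + 1)
  refine ⟨a * (2 * a + 1) + ρ + 1, K, ?_⟩
  intro V _ G r hI hr P x y hP hx hy hxy
  classical
  obtain ⟨R, r1, r2, r3, r4, r5⟩ := h V G P x y hI hP hx hy
  obtain ⟨Qs, q1, q2, q3, q4⟩ := h2 V G r a hI hr (Finset.univ.filter (fun z => z ∈ P ∧ z ∉ R))
  have hm : Qs.length * (2 * a + 1) ≤ a * (2 * a + 1) := Nat.mul_le_mul_right _ q1
  obtain ⟨Z, z1, z2, z3, z4⟩ := h3 V G r a _ P R y hI r4 r3 r5 Qs x ∅ (by simp; omega) hx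
    (by simp) (by simp) hxy q2 q3 (by
      intro z hz
      have := (q4 z).1 hz
      simp only [Finset.mem_filter, Finset.mem_univ, true_and] at this
      exact ⟨this.1, this.2, by simp, fun e => this.2 (e ▸ r2)⟩)
  refine ⟨Z, z1, z2, fun z => ?_, by omega⟩
  rw [z3, q4]
  simp only [Finset.mem_filter, Finset.mem_univ, true_and, Finset.notMem_empty, not_false_eq_true,
    and_true]
  constructor
  · rintro (rfl | h | h)
    · exact hx
    · exact r4 z h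
    · exact h.1
  · intro h
    by_cases e : z ∈ R
    · exact Or.inr (Or.inl e)
    · exact Or.inr (Or.inr ⟨h, e⟩)

theorem main (h1 : LEMB) (h2 : SEP) (h3 : CUT) (h4 : ABS) : MAIN := by
  intro a
  obtain ⟨g, K, h⟩ := h1 a
  obtain ⟨B, hB⟩ := h2 a (fun s => ((s + 1) * (2 * a + 1) + 1) + K)
  refine ⟨((B + 1) * (2 * a + 1) + 1) + a * g, ?_⟩
  intro V _ G r hI hr v0 M m1 m2 m3
  obtain ⟨s, hs, S, s1, s2, s3⟩ := hB V G v0 hI
  obtain ⟨M0, c1, c2, c3, c4, c5⟩ := h3 V G a S v0 M hI s1 m1 m2 m3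
  have e1 : (S.card + 1) * (2 * a + 1) ≤ (s + 1) * (2 * a + 1) :=
    Nat.mul_le_mul_right _ (by omega)
  have e2 : (s + 1) * (2 * a + 1) ≤ (B + 1) * (2 * a + 1) := Nat.mul_le_mul_right _ (by omega)
  obtain ⟨M', d1, d2, d3, d4⟩ := h4 V G r a g K ((s + 1) * (2 * a + 1) + 1) S v0 M0 hI
    (h V G r hI hr) s3 (by omega) c1 c2 c4 c5
  exact ⟨M', d1, d2, d3, by omega⟩

end Pool.Agent.MP_bbfc69_co.HA
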