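import Pool.Agent.MP_bbfc69_co.HA.Cut

namespace Pool.Agent.MP_bbfc69_co.HA

open Cut

/-- The number of steps with exactly one end in `S`. -/
noncomputable def cr {V : Type} (S : Finset V) (L : List V) : ℕ :=
  bw (fun x y => (x ∈ S ↔ y ∈ S)) L

def MRG : Prop :=
  ∀ (V : Type) (G : SimpleGraph V) (S : Finset V) (v0 : V) (M0 A Y B1 Y' B T : List V)
    (p x p' x' : V), Gd G S v0 M0 →
      v0 :: M0 = A ++ p :: (Y ++ x :: (B1 ++ p' :: (Y' ++ x' :: B))) →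
      p ∈ S → p' ∈ S → G.Adj p p' → (∀ z ∈ Y, z ∉ S) → x ∉ S → (∀ z ∈ Y', z ∉ S) → x' ∉ S →
      Ch G (x :: T ++ [x']) → T.Nodup → (∀ z ∈ T, z ∉ S ∧ z ∉ v0 :: M0) →
        ∃ M1 : List V, Gd G S v0 M1 ∧ cr S (v0 :: M1 ++ [v0]) < cr S (v0 :: M0 ++ [v0])

def PIG : Prop :=
  ∀ (V : Type) (G : SimpleGraph V) (a : ℕ) (U : Set V) (T : Finset V) (u : V → V), Ind G a →
    (∀ p ∈ T, u p ∈ U) → (∀ p ∈ T, ∀ q ∈ T, G.Adj p q → ¬ Lk G U (u p) (u q)) → T.card ≤ a * a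

def ORD : Prop :=
  ∀ (V : Type) (S : Finset V) (A Y B A' Y' B' : List V) (p x p' x' : V),
    (A ++ p :: (Y ++ x :: B)).Nodup → A ++ p :: (Y ++ x :: B) = A' ++ p' :: (Y' ++ x' :: B') →
    p ≠ p' → p ∈ S → p' ∈ S → (∀ z ∈ Y, z ∉ S) → x ∉ S → (∀ z ∈ Y', z ∉ S) → x' ∉ S →
      (∃ B1, B = B1 ++ p' :: (Y' ++ x' :: B')) ∨ (∃ B1, B' = B1 ++ p :: (Y ++ x :: B))

def CUT2 : Prop :=
  ∀ (V : Type) [Fintype V] (G : SimpleGraph V) (a K : ℕ) (S : Finset V) (v0 : V) (M : List V),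
    Ind G a → v0 ∈ S → Ch G (v0 :: M ++ [v0]) → (v0 :: M).Nodup → (∀ z, z ∈ v0 :: M) →
    a * a * (2 * a) ≤ K → (∀ u, u ∉ S → Rob G {z | z ∉ S ∧ Lk G {w | w ∉ S} u z} K) →
      ∃ M0 : List V, Gd G S v0 M0 ∧ M0.length ≤ (S.card + 1) * (2 * a + 1) ∧
        ∀ w, w ∉ v0 :: M0 → ∃ F : Finset V, F.card ≤ a * a * (2 * a) ∧
          ∀ z ∈ v0 :: M0, Lk G {z | z ∉ S} w z → z ∈ F

end Pool.Agent.MP_bbfc69_co.HA
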